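import Pool.Agent.Helper7.Sec.Defs

set_option autoImplicit false
open MeasureTheory Set
open scoped ComplexConjugate
noncomputable section
namespace Pool.Agent.Helper7.Sec

namespace NS_A0

-- TARGET
theorem A0 (T : ℂ ≃ᵃ[ℝ] ℂ) (P : Set ℂ) (hP : MeasurableSet P) {F : Type*} [NormedAddCommGroup F] [NormedSpace ℝ F]
    (f : ℂ → F) : (⨍ z in T '' P, f z) = ⨍ z in P, f (T z) := by
  set L : ℂ →L[ℝ] ℂ := LinearMap.toContinuousLinearMap (T.linear : ℂ →ₗ[ℝ] ℂ) with hL
  have hT : ∀ x : ℂ, T x = L x + T 0 := by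
    intro x
    have h1 := T.map_vadd (0:ℂ) x
    simp only [vadd_eq_add, add_zero] at h1
    rw [h1]
    rfl
  have hder : ∀ x ∈ P, HasFDerivWithinAt (fun z => T z) L P x := by
    intro x _
    have h2 : (fun z => T z) = fun z => L z + T 0 := funext hT
    rw [h2]
    exact (L.hasFDerivAt.add_const (T 0)).hasFDerivWithinAt
  have hinj : InjOn (fun z => T z) P := fun x _ y _ h => T.injective h
  have hdet : L.det ≠ 0 := by
    have h3 : L.det = LinearMap.det (T.linear : ℂ →ₗ[ℝ] ℂ) := rfl
    rw [h3]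
    exact (LinearEquiv.isUnit_det' T.linear).ne_zero
  have hd : 0 < |L.det| := abs_pos.mpr hdet
  have himg : T '' P = (fun z => T z) '' P := rfl
  have hint := integral_image_eq_integral_abs_det_fderiv_smul volume hP hder hinj f
  have hvol := lintegral_abs_det_fderiv_eq_addHaar_image volume hP hder hinj
  rw [lintegral_const, Measure.restrict_apply_univ] at hvol
  rw [setAverage_eq, setAverage_eq, himg, hint, integral_smul, Measure.real, ← hvol,
    ENNReal.toReal_mul, ENNReal.toReal_ofReal hd.le, smul_smul, Measure.real, mul_inv, mul_comm,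
    ← mul_assoc, mul_inv_cancel₀ hd.ne', one_mul]

end NS_A0

alias A0 := NS_A0.A0

end Pool.Agent.Helper7.Sec
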