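import Pool.Agent.Helper7.Sec.Defs

set_option autoImplicit false
open MeasureTheory Set
open scoped ComplexConjugate
noncomputable section
namespace Pool.Agent.Helper7.Sec

namespace NS_A1

-- TARGET
theorem A1 (P : Set ℂ) (hP : IsCompact P) (hi : (interior P).Nonempty) : ‖S2 P‖ < S0 P := by
  have hvol : 0 < volume P :=
    lt_of_lt_of_le (isOpen_interior.measure_pos volume hi) (measure_mono interior_subset)
  have hfin : volume P ≠ ⊤ := hP.measure_lt_top.ne
  have hreal : 0 < volume.real P := ENNReal.toReal_pos hvol.ne' hfin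
  unfold S2 S0
  generalize cen P = c
  rw [setAverage_eq, setAverage_eq, norm_smul, smul_eq_mul, norm_inv, Real.norm_of_nonneg hreal.le]
  refine mul_lt_mul_of_pos_left ?_ (inv_pos.2 hreal)
  have hfc : Continuous (fun z : ℂ => (z - c) ^ 2) := by fun_prop
  have hgc : Continuous (fun z : ℂ => ‖z - c‖ ^ 2) := by fun_prop
  have hfi : IntegrableOn (fun z : ℂ => (z - c) ^ 2) P := hfc.continuousOn.integrableOn_compact hP
  have hgi : IntegrableOn (fun z : ℂ => ‖z - c‖ ^ 2) P := hgc.continuousOn.integrableOn_compact hP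
  set S : ℂ := ∫ z in P, (z - c) ^ 2 with hS
  obtain ⟨v, hv1, hv2⟩ : ∃ v : ℂ, ‖v‖ = 1 ∧ v ^ 2 * S = (‖S‖ : ℂ) := by
    rcases eq_or_ne S 0 with h0 | h0
    · exact ⟨1, by simp, by simp [h0]⟩
    · have hSn : (‖S‖ : ℂ) ≠ 0 := by exact_mod_cast (norm_ne_zero_iff.2 h0)
      obtain ⟨v, hv⟩ := IsAlgClosed.exists_pow_nat_eq (conj S / (‖S‖ : ℂ)) (n := 2) (by norm_num)
      refine ⟨v, ?_, ?_⟩
      · have h1 : ‖v‖ ^ 2 = 1 := by
          rw [← norm_pow, hv, norm_div, RCLike.norm_conj, Complex.norm_real, norm_norm]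
          exact div_self (norm_ne_zero_iff.2 h0)
        have h2 : 0 ≤ ‖v‖ := norm_nonneg v
        nlinarith
      · rw [hv, div_mul_eq_mul_div, mul_comm (conj S) S, Complex.mul_conj, Complex.normSq_eq_norm_sq]
        rw [div_eq_iff hSn]
        push_cast
        ring
  have hkey : ∀ z : ℂ, ‖z - c‖ ^ 2 - (v ^ 2 * (z - c) ^ 2).re = 2 * (v * (z - c)).im ^ 2 := by
    intro z
    have h1 : ‖z - c‖ ^ 2 = ‖v * (z - c)‖ ^ 2 := by rw [norm_mul, hv1, one_mul]
    have h2 : v ^ 2 * (z - c) ^ 2 = (v * (z - c)) * (v * (z - c)) := by ring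
    have h3 : ∀ u : ℂ, ‖u‖ ^ 2 - (u * u).re = 2 * u.im ^ 2 := by
      intro u
      rw [← Complex.normSq_eq_norm_sq, Complex.normSq_apply, Complex.mul_re]
      ring
    rw [h1, h2]
    exact h3 _
  have hri : IntegrableOn (fun z : ℂ => (v ^ 2 * (z - c) ^ 2).re) P := by
    have : Continuous (fun z : ℂ => (v ^ 2 * (z - c) ^ 2).re) := by fun_prop
    exact this.continuousOn.integrableOn_compact hP
  have hre : ‖S‖ = ∫ z in P, (v ^ 2 * (z - c) ^ 2).re := by
    have h1 : ∫ z in P, (v ^ 2 * (z - c) ^ 2).re = (∫ z in P, v ^ 2 * (z - c) ^ 2).re :=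
      Complex.reCLM.integral_comp_comm (hfi.const_mul (v ^ 2))
    rw [h1, integral_const_mul, ← hS, hv2, Complex.ofReal_re]
  rw [hre, ← sub_pos, ← integral_sub hgi hri]
  simp_rw [hkey]
  have hkc : Continuous (fun z : ℂ => 2 * (v * (z - c)).im ^ 2) := by fun_prop
  rw [setIntegral_pos_iff_support_of_nonneg_ae (Filter.Eventually.of_forall fun z => by positivity)
    (hkc.continuousOn.integrableOn_compact hP)]
  obtain ⟨z1, hz1⟩ := hi
  have hv0 : v ≠ 0 := by
    intro h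
    rw [h, norm_zero] at hv1
    exact zero_ne_one hv1
  obtain ⟨z2, hz2, hz2'⟩ : ∃ z2 ∈ interior P, (v * (z2 - c)).im ≠ 0 := by
    by_cases h : (v * (z1 - c)).im = 0
    · have hcont : Continuous (fun t : ℝ => z1 + (t : ℂ) * (Complex.I * v⁻¹)) := by fun_prop
      have hmem : (fun t : ℝ => z1 + (t : ℂ) * (Complex.I * v⁻¹)) ⁻¹' (interior P) ∈ nhds (0 : ℝ) := by
        refine hcont.continuousAt.preimage_mem_nhds ?_
        simpa using isOpen_interior.mem_nhds hz1
      obtain ⟨ε, hε, hb⟩ := Metric.mem_nhds_iff.1 hmem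
      refine ⟨z1 + ((ε / 2 : ℝ) : ℂ) * (Complex.I * v⁻¹), hb ?_, ?_⟩
      · rw [Metric.mem_ball, Real.dist_eq, sub_zero, abs_of_pos (half_pos hε)]
        exact half_lt_self hε
      · have h3 : v * (z1 + ((ε / 2 : ℝ) : ℂ) * (Complex.I * v⁻¹) - c) =
            v * (z1 - c) + ((ε / 2 : ℝ) : ℂ) * Complex.I := by
          field_simp
          ring
        rw [h3, Complex.add_im, h, zero_add, Complex.mul_im]
        simp
        exact hε.ne'
    · exact ⟨z1, hz1, h⟩
  have hopen : IsOpen (interior P ∩ {z : ℂ | 2 * (v * (z - c)).im ^ 2 ≠ 0}) :=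
    isOpen_interior.inter (isOpen_ne_fun hkc continuous_const)
  refine lt_of_lt_of_le (hopen.measure_pos volume ⟨z2, hz2, ?_⟩) (measure_mono ?_)
  · exact mul_ne_zero two_ne_zero (pow_ne_zero 2 hz2')
  · rintro z ⟨h1, h2⟩
    exact ⟨h2, interior_subset h1⟩

end NS_A1

alias A1 := NS_A1.A1

end Pool.Agent.Helper7.Sec
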