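import Pool.Agent.Helper7.Sec.Defs

set_option autoImplicit false
open MeasureTheory Set
open scoped ComplexConjugate
noncomputable section
namespace Pool.Agent.Helper7.Sec

namespace NS_A2

-- TARGET
theorem A2 (s0 : ℝ) (s2 p q : ℂ) (h : ‖s2‖ < s0) (he : p ^ 2 * s2 + 2 * p * q * (s0 : ℂ) + q ^ 2 * conj s2 = 0) :
    q = -(s2 / ((s0 + Real.sqrt (s0 ^ 2 - ‖s2‖ ^ 2) : ℝ) : ℂ)) * p ∨
    p = -(conj (s2 / ((s0 + Real.sqrt (s0 ^ 2 - ‖s2‖ ^ 2) : ℝ) : ℂ))) * q := by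
  have hn : 0 ≤ ‖s2‖ := norm_nonneg s2
  have hs0 : 0 < s0 := lt_of_le_of_lt hn h
  have hsq : 0 ≤ s0 ^ 2 - ‖s2‖ ^ 2 := by nlinarith
  have hr := Real.sq_sqrt hsq
  set w := Real.sqrt (s0 ^ 2 - ‖s2‖ ^ 2) with hw
  have hw0 : 0 ≤ w := Real.sqrt_nonneg _
  have hD : (0 : ℝ) < s0 + w := by linarith
  set D : ℝ := s0 + w with hDdef
  have hDC : (D : ℂ) ≠ 0 := by exact_mod_cast hD.ne'
  have hreal : ‖s2‖ ^ 2 = 2 * D * s0 - D ^ 2 := by
    rw [hDdef]; nlinarith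
  have hc : s2 * conj s2 = 2 * (D : ℂ) * (s0 : ℂ) - (D : ℂ) ^ 2 := by
    rw [Complex.mul_conj, Complex.normSq_eq_norm_sq, hreal]
    push_cast
    ring
  have hk : conj (s2 / (D : ℂ)) = conj s2 / (D : ℂ) := by
    rw [map_div₀, Complex.conj_ofReal]
  rw [hk]
  have hprod : (q + s2 / (D : ℂ) * p) * (conj s2 / (D : ℂ) * q + p) = 0 := by
    have h1 : (D : ℂ) ^ 2 * ((q + s2 / (D : ℂ) * p) * (conj s2 / (D : ℂ) * q + p)) = 0 := by
      have h2 : (D : ℂ) ^ 2 * ((q + s2 / (D : ℂ) * p) * (conj s2 / (D : ℂ) * q + p)) =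
          ((D : ℂ) * q + s2 * p) * (conj s2 * q + (D : ℂ) * p) := by
        field_simp
      rw [h2]
      linear_combination (D : ℂ) * he + p * q * hc
    exact (mul_eq_zero.1 h1).resolve_left (pow_ne_zero 2 hDC)
  rcases mul_eq_zero.1 hprod with h1 | h1
  · left; linear_combination h1
  · right; linear_combination h1

end NS_A2

alias A2 := NS_A2.A2

end Pool.Agent.Helper7.Sec
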