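import Pool.Agent.Helper7.Sec.Defs

set_option autoImplicit false
open MeasureTheory Set
open scoped ComplexConjugate
noncomputable section
namespace Pool.Agent.Helper7.Sec

namespace NS_A2b

-- TARGET
theorem A2b (s0 : ℝ) (s2 : ℂ) (h : ‖s2‖ < s0) :
    ‖s2 / ((s0 + Real.sqrt (s0 ^ 2 - ‖s2‖ ^ 2) : ℝ) : ℂ)‖ < 1 ∧
    (let k := s2 / ((s0 + Real.sqrt (s0 ^ 2 - ‖s2‖ ^ 2) : ℝ) : ℂ); s2 - 2 * k * (s0 : ℂ) + k ^ 2 * conj s2 = 0) := by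
  have hn : 0 ≤ ‖s2‖ := norm_nonneg _
  have hs0 : 0 < s0 := lt_of_le_of_lt hn h
  have hq0 : 0 ≤ s0 ^ 2 - ‖s2‖ ^ 2 := by nlinarith
  set q : ℝ := Real.sqrt (s0 ^ 2 - ‖s2‖ ^ 2) with hq
  have hqq : q ^ 2 = s0 ^ 2 - ‖s2‖ ^ 2 := Real.sq_sqrt hq0
  have hqn : 0 ≤ q := Real.sqrt_nonneg _
  set D : ℝ := s0 + q with hD
  have hD0 : 0 < D := by linarith
  have hDn : ‖s2‖ ^ 2 = 2 * s0 * D - D ^ 2 := by rw [hD]; nlinarith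
  refine ⟨?_, ?_⟩
  · rw [norm_div, Complex.norm_real, Real.norm_eq_abs, abs_of_pos hD0, div_lt_one hD0]
    linarith
  · have hDc : (D : ℂ) ≠ 0 := by exact_mod_cast hD0.ne'
    have hc : s2 * conj s2 = 2 * (s0 : ℂ) * (D : ℂ) - (D : ℂ) ^ 2 := by
      rw [Complex.mul_conj, Complex.normSq_eq_norm_sq, hDn]
      push_cast
      ring
    show s2 - 2 * (s2 / (D : ℂ)) * (s0 : ℂ) + (s2 / (D : ℂ)) ^ 2 * conj s2 = 0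
    have e : s2 - 2 * (s2 / (D : ℂ)) * (s0 : ℂ) + (s2 / (D : ℂ)) ^ 2 * conj s2
        = s2 * ((D : ℂ) ^ 2 - 2 * (s0 : ℂ) * (D : ℂ) + s2 * conj s2) / (D : ℂ) ^ 2 := by
      field_simp
    rw [e, hc]
    ring_nf

end NS_A2b

alias A2b := NS_A2b.A2b

end Pool.Agent.Helper7.Sec
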