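import Pool.Agent.Helper7.Sec.Defs
import Pool.Agent.Helper7.Sec.A0
import Pool.Agent.Helper7.Sec.A1
import Pool.Agent.Helper7.Sec.A2
import Pool.Agent.Helper7.Sec.A2b

set_option autoImplicit false
open MeasureTheory Set
open scoped ComplexConjugate
noncomputable section
namespace Pool.Agent.Helper7.Sec

namespace NS_A3

theorem A3_mom (P : Set ℂ) (hP : IsCompact P) (α β γ : ℂ) :
    (⨍ z in P, (α * (z - cen P) ^ 2 + β * ((z - cen P) * conj (z - cen P)) +
      γ * (conj (z - cen P)) ^ 2)) =
      α * S2 P + β * (S0 P : ℂ) + γ * conj (S2 P) := by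
  have hint : ∀ f : ℂ → ℂ, Continuous f → Integrable f (volume.restrict P) := fun f hf =>
    (hf.continuousOn.integrableOn_compact hP)
  have i1 : Integrable (fun z : ℂ => α * (z - cen P) ^ 2) (volume.restrict P) :=
    hint _ (by fun_prop)
  have i2 : Integrable (fun z : ℂ => β * ((z - cen P) * conj (z - cen P))) (volume.restrict P) :=
    hint _ (by fun_prop)
  have i3 : Integrable (fun z : ℂ => γ * (conj (z - cen P)) ^ 2) (volume.restrict P) :=
    hint _ (by fun_prop)
  have i12 : Integrable (fun z : ℂ => α * (z - cen P) ^ 2 +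
      β * ((z - cen P) * conj (z - cen P))) (volume.restrict P) := hint _ (by fun_prop)
  rw [setAverage_eq, integral_add i12 i3, integral_add i1 i2, integral_const_mul,
    integral_const_mul, integral_const_mul]
  have e1 : S2 P = (volume.real P)⁻¹ • ∫ z in P, (z - cen P) ^ 2 := by rw [S2, setAverage_eq]
  have e2 : (S0 P : ℂ) = (volume.real P)⁻¹ • ∫ z in P, ((z - cen P) * conj (z - cen P)) := by
    rw [S0, setAverage_eq]
    have : ∀ z, (z - cen P) * conj (z - cen P) = ((‖z - cen P‖ ^ 2 : ℝ) : ℂ) := by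
      intro z; rw [Complex.mul_conj']; push_cast; rfl
    simp_rw [this]
    rw [integral_complex_ofReal]
    simp
  have e3 : conj (S2 P) = (volume.real P)⁻¹ • ∫ z in P, (conj (z - cen P)) ^ 2 := by
    rw [e1]
    have : ∀ z, (conj (z - cen P)) ^ 2 = conj ((z - cen P) ^ 2) := by intro z; rw [map_pow]
    simp_rw [this]
    rw [integral_conj]
    simp
  rw [e3, e1, e2]
  simp only [smul_add, Complex.real_smul]
  ring

theorem A3_aff (T : ℂ ≃ᵃ[ℝ] ℂ) : ∃ a b : ℂ, ∀ z c, T z - T c = a * (z - c) + b * conj (z - c) := by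
  refine ⟨(T.linear 1 - Complex.I * T.linear Complex.I) / 2,
    (T.linear 1 + Complex.I * T.linear Complex.I) / 2, ?_⟩
  intro z c
  have h1 : T z - T c = T.linear (z - c) := by
    have := T.toAffineMap.linearMap_vsub z c
    simpa using this.symm
  have h2 : ∀ w : ℂ, T.linear w = (w.re : ℂ) * T.linear 1 + (w.im : ℂ) * T.linear Complex.I := by
    intro w
    have hw : w = (w.re) • (1:ℂ) + (w.im) • Complex.I := by
      rw [Complex.real_smul, Complex.real_smul, mul_one]
      exact (Complex.re_add_im w).symm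
    conv_lhs => rw [hw]
    rw [map_add, map_smul, map_smul, Complex.real_smul, Complex.real_smul]
  rw [h1, h2 (z - c)]
  generalize z - c = w
  generalize T.linear 1 = A
  generalize T.linear Complex.I = B
  have hw : w = (w.re : ℂ) + (w.im : ℂ) * Complex.I := (Complex.re_add_im w).symm
  have hw' : conj w = (w.re : ℂ) - (w.im : ℂ) * Complex.I := by
    apply Complex.ext <;> simp
  rw [hw']
  conv_rhs => rw [hw]
  simp only [Complex.add_re, Complex.add_im, Complex.ofReal_re, Complex.ofReal_im, Complex.mul_re,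
    Complex.mul_im, Complex.I_re, Complex.I_im]
  have hI : Complex.I ^ 2 = -1 := Complex.I_sq
  simp only [mul_zero, mul_one, zero_add, add_zero, sub_zero, zero_mul]
  linear_combination ((w.im : ℂ) * B) * hI

theorem A3_cen (T : ℂ ≃ᵃ[ℝ] ℂ) (P : Set ℂ) (hP : IsCompact P) (hi : (interior P).Nonempty) :
    cen (T '' P) = T (cen P) := by
  obtain ⟨a, b, hab⟩ := A3_aff T
  have h0 : volume P ≠ 0 := ((isOpen_interior.measure_pos volume hi).trans_le (measure_mono interior_subset)).ne'
  have h1 : volume P ≠ ⊤ := hP.measure_lt_top.ne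
  have hV : volume.real P ≠ 0 := by
    rw [Measure.real]
    exact (ENNReal.toReal_pos h0 h1).ne'
  have hT : ∀ z, T z = T 0 + (a * z + b * conj z) := by
    intro z
    have := hab z 0
    rw [sub_zero] at this
    rw [← this]; ring
  have hint : ∀ f : ℂ → ℂ, Continuous f → Integrable f (volume.restrict P) := fun f hf =>
    (hf.continuousOn.integrableOn_compact hP)
  have e0 : cen (T '' P) = ⨍ z in P, T z := by
    rw [cen, A0 T P hP.measurableSet (fun z => z)]
  have ec : cen P = (volume.real P)⁻¹ • ∫ z in P, z := by rw [cen, setAverage_eq]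
  have e0' : (⨍ z in P, T z) = ⨍ z in P, (T 0 + (a * z + b * conj z)) := by
    congr 1
    funext z
    exact hT z
  rw [e0, e0', hT (cen P), ec]
  have i0 : Integrable (fun z : ℂ => T 0) (volume.restrict P) := hint _ (by fun_prop)
  have i1 : Integrable (fun z : ℂ => a * z) (volume.restrict P) := hint _ (by fun_prop)
  have i2 : Integrable (fun z : ℂ => b * conj z) (volume.restrict P) := hint _ (by fun_prop)
  have i12 : Integrable (fun z : ℂ => a * z + b * conj z) (volume.restrict P) :=
    hint _ (by fun_prop)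
  rw [setAverage_eq, integral_add i0 i12, integral_add i1 i2, integral_const_mul,
    integral_const_mul, integral_conj, setIntegral_const]
  simp only [smul_add, Complex.real_smul, map_mul, Complex.conj_ofReal]
  have hV' : ((volume.real P : ℝ) : ℂ) ≠ 0 := by exact_mod_cast hV
  push_cast
  field_simp

-- TARGET
theorem A3 (T : ℂ ≃ᵃ[ℝ] ℂ) (P : Set ℂ) (hP : IsCompact P) (hi : (interior P).Nonempty) :
    ∃ l : ℂ, l ≠ 0 ∧ ((∀ z, Nor (T '' P) (T z) = l * Nor P z) ∨ (∀ z, Nor (T '' P) (T z) = l * conj (Nor P z))) := by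
  obtain ⟨a, b, hab⟩ := A3_aff T
  have hcen := A3_cen T P hP hi
  have hTc : Continuous T := T.toHomeomorphOfFiniteDimensional.continuous
  have hP' : IsCompact (T '' P) := hP.image hTc
  have hi' : (interior (T '' P)).Nonempty := by
    have := T.toHomeomorphOfFiniteDimensional.image_interior P
    have h2 : (T.toHomeomorphOfFiniteDimensional '' (interior P)).Nonempty := hi.image _
    rw [this] at h2
    exact h2
  have hA1 := A1 P hP hi
  have hA1' := A1 (T '' P) hP' hi'
  obtain ⟨hk1, hk2⟩ := A2b _ _ hA1'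
  -- moments of the image
  have hS2 : S2 (T '' P) = a ^ 2 * S2 P + (2 * a * b) * (S0 P : ℂ) + b ^ 2 * conj (S2 P) := by
    rw [← A3_mom P hP, S2, A0 T P hP.measurableSet, hcen]
    congr 1
    funext z
    rw [hab]; ring
  have hS0 : ((S0 (T '' P) : ℝ) : ℂ) = (a * conj b) * S2 P + (a * conj a + b * conj b) * (S0 P : ℂ)
      + (b * conj a) * conj (S2 P) := by
    rw [← A3_mom P hP, S0, A0 T P hP.measurableSet, hcen, setAverage_eq, setAverage_eq]
    have : ∀ z, a * conj b * (z - cen P) ^ 2 + (a * conj a + b * conj b) * ((z - cen P) * conj (z - cen P)) + b * conj a * conj (z - cen P) ^ 2 = ((‖T z - T (cen P)‖ ^ 2 : ℝ) : ℂ) := by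
      intro z
      have h := Complex.mul_conj' (T z - T (cen P))
      push_cast
      rw [← h, hab]
      simp only [map_add, map_mul, Complex.conj_conj]
      ring
    simp_rw [this]
    rw [integral_complex_ofReal]
    simp
  set k' := kap (T '' P) with hk'
  have hk2' : S2 (T '' P) - 2 * k' * (S0 (T '' P) : ℂ) + k' ^ 2 * conj (S2 (T '' P)) = 0 := hk2
  have hk1' : ‖k'‖ < 1 := hk1
  obtain ⟨p, hp⟩ : ∃ p, p = a - k' * conj b := ⟨_, rfl⟩
  obtain ⟨q, hq⟩ : ∃ q, q = b - k' * conj a := ⟨_, rfl⟩
  have hNor : ∀ z, Nor (T '' P) (T z) = p * (z - cen P) + q * conj (z - cen P) := by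
    intro z
    rw [Nor, hcen, hab, ← hk', hp, hq]
    simp only [map_add, map_mul, Complex.conj_conj]
    ring
  have heq : p ^ 2 * S2 P + 2 * p * q * (S0 P : ℂ) + q ^ 2 * conj (S2 P) = 0 := by
    rw [← hk2', hS0, hS2, hp, hq]
    simp only [map_add, map_mul, map_pow, Complex.conj_conj, Complex.conj_ofReal, map_ofNat]
    ring
  have hne : ¬ (∀ z, Nor (T '' P) (T z) = 0) := by
    intro h
    obtain ⟨z, hz⟩ : ∃ z, T z = cen (T '' P) + 1 := ⟨T.symm _, T.apply_symm_apply _⟩
    have h1 := h z
    rw [Nor, hz, ← hk'] at h1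
    simp only [add_sub_cancel_left, map_one, mul_one] at h1
    have h2 : k' = 1 := (sub_eq_zero.1 h1).symm
    rw [h2, norm_one] at hk1'
    exact lt_irrefl _ hk1'
  rcases A2 _ _ p q hA1 heq with h | h
  · have h' : ∀ z, Nor (T '' P) (T z) = p * Nor P z := by
      intro z
      rw [hNor, h, Nor, kap]; ring
    refine ⟨p, ?_, Or.inl h'⟩
    rintro rfl
    exact hne (fun z => by rw [h', zero_mul])
  · have h' : ∀ z, Nor (T '' P) (T z) = q * conj (Nor P z) := by
      intro z
      rw [hNor, h, Nor, kap]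
      simp only [map_sub, map_mul, Complex.conj_conj]; ring
    refine ⟨q, ?_, Or.inr h'⟩
    rintro rfl
    exact hne (fun z => by rw [h', zero_mul])

end NS_A3

alias A3 := NS_A3.A3

end Pool.Agent.Helper7.Sec
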