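import Pool.Agent.Helper7.Sec.Defs
import Pool.Agent.Helper7.Sec.A0
import Pool.Agent.Helper7.Sec.A3

set_option autoImplicit false
open MeasureTheory Set
open scoped ComplexConjugate
noncomputable section
namespace Pool.Agent.Helper7.Sec

namespace NS_A4

-- TARGET
theorem A4 (T : ℂ ≃ᵃ[ℝ] ℂ) (P : Set ℂ) (hP : IsCompact P) (hi : (interior P).Nonempty) (m j : ℕ) :
    M P m j = 0 → M (T '' P) m j = 0 := by
  intro h0
  obtain ⟨l, -, hl⟩ := A3 T P hP hi
  unfold M at h0 ⊢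
  rw [A0 T P hP.measurableSet]
  rw [setAverage_eq] at h0 ⊢
  rcases hl with hl | hl
  · have e1 : (fun z => (Nor (T '' P) (T z)) ^ m * ((‖Nor (T '' P) (T z)‖ : ℝ) : ℂ) ^ (2 * j)) =
        fun z => (l ^ m * ((‖l‖ : ℝ) : ℂ) ^ (2 * j)) *
          ((Nor P z) ^ m * ((‖Nor P z‖ : ℝ) : ℂ) ^ (2 * j)) := by
      funext z
      rw [hl z, norm_mul]
      push_cast
      ring
    rw [e1, integral_const_mul, ← mul_smul_comm, h0, mul_zero]
  · have e1 : (fun z => (Nor (T '' P) (T z)) ^ m * ((‖Nor (T '' P) (T z)‖ : ℝ) : ℂ) ^ (2 * j)) =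
        fun z => (l ^ m * ((‖l‖ : ℝ) : ℂ) ^ (2 * j)) *
          conj ((Nor P z) ^ m * ((‖Nor P z‖ : ℝ) : ℂ) ^ (2 * j)) := by
      funext z
      rw [hl z, norm_mul, RCLike.norm_conj]
      simp only [map_mul, map_pow, Complex.conj_ofReal]
      push_cast
      ring
    rw [e1, integral_const_mul, ← mul_smul_comm, integral_conj]
    have h1 := congrArg (starRingEnd ℂ) h0
    rw [map_zero, Complex.real_smul, map_mul, Complex.conj_ofReal, ← Complex.real_smul] at h1
    rw [h1, mul_zero]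

end NS_A4

alias A4 := NS_A4.A4

end Pool.Agent.Helper7.Sec
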