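import Pool.Agent.Helper7.Sec.Defs

set_option autoImplicit false
open MeasureTheory Set
open scoped ComplexConjugate
noncomputable section
namespace Pool.Agent.Helper7.Sec

namespace NS_B1

theorem B1_avg {F : Type} [NormedAddCommGroup F] [NormedSpace ℝ F] (w : ℂ) (hw : ‖w‖ = 1)
    (P : Set ℂ) (f : ℂ → F) :
    (⨍ z in (fun z => w * z) '' P, f z) = ⨍ z in P, f (w * z) := by
  let e : ℂ ≃ₗᵢ[ℝ] ℂ := rotation ⟨w, by simpa [Submonoid.unitSphere] using hw⟩
  have he : ∀ z, e z = w * z := fun z => rfl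
  have hmp : MeasurePreserving e volume volume := e.measurePreserving
  have hemb : MeasurableEmbedding e := e.toHomeomorph.measurableEmbedding
  have himg : (fun z => w * z) '' P = e '' P := rfl
  rw [himg, setAverage_eq, setAverage_eq, hmp.setIntegral_image_emb hemb]
  have hvol : volume.real (e '' P) = volume.real P := by
    rw [measureReal_def, measureReal_def]
    congr 1
    have h := hmp.measure_preimage_emb hemb (e '' P)
    rw [Set.preimage_image_eq _ e.injective] at h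
    exact h.symm
  rw [hvol]
  rfl

theorem B1_const (P : Set ℂ) (c : ℂ) (f : ℂ → ℂ) : (⨍ z in P, c * f z) = c * ⨍ z in P, f z := by
  rw [setAverage_eq, setAverage_eq, integral_const_mul, mul_smul_comm]

theorem B1_cen (w : ℂ) (hw : ‖w‖ = 1) (P : Set ℂ) :
    cen ((fun z => w * z) '' P) = w * cen P := by
  unfold cen
  rw [B1_avg w hw P (fun z => z), B1_const]

theorem B1_S0 (w : ℂ) (hw : ‖w‖ = 1) (P : Set ℂ) : S0 ((fun z => w * z) '' P) = S0 P := by
  unfold S0
  rw [B1_avg w hw P (fun z => ‖z - cen ((fun z => w * z) '' P)‖ ^ 2), B1_cen w hw]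
  have h : ∀ z, ‖w * z - w * cen P‖ = ‖z - cen P‖ := by
    intro z
    rw [← mul_sub, norm_mul, hw, one_mul]
  simp only [h]

theorem B1_S2 (w : ℂ) (hw : ‖w‖ = 1) (P : Set ℂ) :
    S2 ((fun z => w * z) '' P) = w ^ 2 * S2 P := by
  unfold S2
  rw [B1_avg w hw P (fun z => (z - cen ((fun z => w * z) '' P)) ^ 2), B1_cen w hw, ← B1_const]
  have h : ∀ z, (w * z - w * cen P) ^ 2 = w ^ 2 * (z - cen P) ^ 2 := by
    intro z
    ring
  simp only [h]

theorem B1_kap (w : ℂ) (hw : ‖w‖ = 1) (P : Set ℂ) :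
    kap ((fun z => w * z) '' P) = w ^ 2 * kap P := by
  unfold kap
  rw [B1_S0 w hw, B1_S2 w hw, norm_mul, norm_pow, hw, one_pow, one_mul, mul_div_assoc]

theorem B1_Nor (w : ℂ) (hw : ‖w‖ = 1) (P : Set ℂ) (z : ℂ) :
    Nor ((fun z => w * z) '' P) (w * z) = w * Nor P z := by
  unfold Nor
  rw [B1_cen w hw, B1_kap w hw]
  have h : w * conj w = 1 := by
    rw [Complex.mul_conj, Complex.normSq_eq_norm_sq, hw]
    simp
  rw [← mul_sub, map_mul]
  linear_combination (-(w * kap P * conj (z - cen P))) * h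

-- TARGET
theorem B1 (w : ℂ) (hw : ‖w‖ = 1) (P : Set ℂ) (hP : MeasurableSet P) (m j : ℕ) :
    M ((fun z => w * z) '' P) m j = w ^ m * M P m j := by
  unfold M
  rw [B1_avg w hw P (fun z => (Nor ((fun z => w * z) '' P) z) ^ m *
    ((‖Nor ((fun z => w * z) '' P) z‖ : ℝ) : ℂ) ^ (2 * j)), ← B1_const]
  have h : ∀ z, (Nor ((fun z => w * z) '' P) (w * z)) ^ m *
      ((‖Nor ((fun z => w * z) '' P) (w * z)‖ : ℝ) : ℂ) ^ (2 * j) =
      w ^ m * ((Nor P z) ^ m * ((‖Nor P z‖ : ℝ) : ℂ) ^ (2 * j)) := by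
    intro z
    rw [B1_Nor w hw, norm_mul, hw, one_mul, mul_pow]
    ring
  simp only [h]

end NS_B1

alias B1 := NS_B1.B1

end Pool.Agent.Helper7.Sec
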