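import Pool.Agent.Helper7.Sec.Defs

set_option autoImplicit false
open MeasureTheory Set
open scoped ComplexConjugate
noncomputable section
namespace Pool.Agent.Helper7.Sec

namespace NS_C0

theorem C0_dirm (r : ℂ → ℝ) (hr : Continuous r) :
    Measurable fun z : ℂ => r ((‖z‖⁻¹ : ℝ) • z) :=
  hr.measurable.comp (measurable_norm.inv.smul measurable_id)

theorem C0_PBm (r : ℂ → ℝ) (hr : Continuous r) : MeasurableSet (PB r) :=
  measurableSet_le measurable_norm (C0_dirm r hr)

open scoped Pointwise in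
theorem C0_null (r : ℂ → ℝ) (hr : Continuous r) (hpos : ∀ z, 0 < r z) :
    volume {z : ℂ | ‖z‖ = r ((‖z‖⁻¹ : ℝ) • z)} = 0 := by
  set A : Set ℂ := {z : ℂ | ‖z‖ = r ((‖z‖⁻¹ : ℝ) • z)} with hA
  have hAm : MeasurableSet A := measurableSet_eq_fun measurable_norm (C0_dirm r hr)
  by_contra hne
  have hmem : ∀ (t : ℝ), 0 < t → ∀ z : ℂ, z ∈ t • A → ‖z‖ = t * r ((‖z‖⁻¹ : ℝ) • z) := by
    intro t ht z hz
    rw [Set.mem_smul_set] at hz
    obtain ⟨w, hw, rfl⟩ := hz
    have hn : ‖t • w‖ = t * ‖w‖ := by rw [norm_smul, Real.norm_eq_abs, abs_of_pos ht]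
    have hd : (‖t • w‖⁻¹ : ℝ) • (t • w) = (‖w‖⁻¹ : ℝ) • w := by
      rw [hn, smul_smul, mul_inv, mul_right_comm, inv_mul_cancel₀ ht.ne', one_mul]
    rw [hd, hn]
    have : ‖w‖ = r ((‖w‖⁻¹ : ℝ) • w) := hw
    rw [← this]
  have hc := Measure.countable_meas_pos_of_disjoint_iUnion (μ := (volume : Measure ℂ))
    (As := fun t : Set.Ioi (0:ℝ) => (t : ℝ) • A)
    (fun t => hAm.const_smul₀ (t : ℝ)) (by
      intro t t' htt
      rw [Function.onFun, Set.disjoint_left]
      intro z hz hz'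
      have h1 := hmem t t.2 z hz
      have h2 := hmem t' t'.2 z hz'
      have h3 : (t : ℝ) = t' := by
        have h4 := hpos ((‖z‖⁻¹ : ℝ) • z)
        have h5 : (t : ℝ) * r ((‖z‖⁻¹ : ℝ) • z) = t' * r ((‖z‖⁻¹ : ℝ) • z) := by rw [← h1, ← h2]
        exact mul_right_cancel₀ h4.ne' h5
      exact htt (Subtype.ext h3))
  have hall : {t : Set.Ioi (0:ℝ) | 0 < volume ((t : ℝ) • A)} = Set.univ := by
    ext t
    simp only [Set.mem_setOf_eq, Set.mem_univ, iff_true]
    rw [Measure.addHaar_smul, pos_iff_ne_zero]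
    apply mul_ne_zero _ hne
    rw [ENNReal.ofReal_ne_zero_iff]
    exact abs_pos.2 (pow_ne_zero _ (ne_of_gt t.2))
  rw [hall, Set.countable_univ_iff] at hc
  have h6 : (Set.Ioi (0:ℝ)).Countable := Set.countable_coe_iff.1 hc
  have h7 := h6.measure_zero (volume : Measure ℝ)
  rw [Real.volume_Ioi] at h7
  exact ENNReal.top_ne_zero h7

-- TARGET
theorem C0 (R : ℝ × ℝ → ℂ → ℝ) (hR : Continuous (fun q : (ℝ × ℝ) × ℂ => R q.1 q.2)) (hpos : ∀ x z, 0 < R x z)
    (F : ℝ × ℝ → ℂ → ℂ) (hF : Continuous (fun q : (ℝ × ℝ) × ℂ => F q.1 q.2)) :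
    Continuous (fun x => ∫ z in PB (R x), F x z) := by
  have hRx : ∀ x, Continuous (R x) := fun x => hR.comp (Continuous.prodMk_right x)
  have hFx : ∀ x, Continuous (F x) := fun x => hF.comp (Continuous.prodMk_right x)
  have hRz : ∀ z, Continuous (fun x => R x z) := fun z => hR.comp (Continuous.prodMk_left z)
  have hFz : ∀ z, Continuous (fun x => F x z) := fun z => hF.comp (Continuous.prodMk_left z)
  have e : (fun x => ∫ z in PB (R x), F x z) = fun x => ∫ z, (PB (R x)).indicator (F x) z := by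
    funext x
    rw [integral_indicator (C0_PBm _ (hRx x))]
  rw [e, continuous_iff_continuousAt]
  intro x₀
  obtain ⟨B, hB⟩ := (((isCompact_closedBall x₀ 1).prod (isCompact_closedBall (0:ℂ) 1)).exists_bound_of_continuousOn
    hR.continuousOn)
  obtain ⟨C, hC⟩ := (((isCompact_closedBall x₀ 1).prod (isCompact_closedBall (0:ℂ) B)).exists_bound_of_continuousOn
    hF.continuousOn)
  have hBz : ∀ x ∈ Metric.closedBall x₀ 1, ∀ z ∈ PB (R x), ‖z‖ ≤ B := by
    intro x hx z hz
    have h1 : ‖z‖ ≤ R x ((‖z‖⁻¹ : ℝ) • z) := hz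
    have h2 : ‖R x ((‖z‖⁻¹ : ℝ) • z)‖ ≤ B := by
      apply hB (x, (‖z‖⁻¹ : ℝ) • z)
      refine ⟨hx, ?_⟩
      rw [mem_closedBall_zero_iff, norm_smul, norm_inv, norm_norm]
      exact inv_mul_le_one
    exact h1.trans ((le_abs_self _).trans h2)
  apply continuousAt_of_dominated (bound := (Metric.closedBall (0:ℂ) B).indicator fun _ => C)
  · apply Filter.Eventually.of_forall
    intro x
    exact ((hFx x).measurable.indicator (C0_PBm _ (hRx x))).aestronglyMeasurable
  · filter_upwards [Metric.closedBall_mem_nhds x₀ one_pos] with x hx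
    apply Filter.Eventually.of_forall
    intro z
    by_cases hz : z ∈ PB (R x)
    · have hzB : z ∈ Metric.closedBall (0:ℂ) B := by
        rw [mem_closedBall_zero_iff]; exact hBz x hx z hz
      rw [Set.indicator_of_mem hz, Set.indicator_of_mem hzB]
      exact hC (x, z) ⟨hx, hzB⟩
    · rw [Set.indicator_of_notMem hz, norm_zero]
      by_cases hzB : z ∈ Metric.closedBall (0:ℂ) B
      · rw [Set.indicator_of_mem hzB]
        exact (norm_nonneg _).trans (hC (x, z) ⟨hx, hzB⟩)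
      · rw [Set.indicator_of_notMem hzB]
  · rw [integrable_indicator_iff Metric.isClosed_closedBall.measurableSet]
    exact integrableOn_const (isCompact_closedBall (0:ℂ) B).measure_lt_top.ne
  · have h0 := C0_null (R x₀) (hRx x₀) (hpos x₀)
    have h1 : ∀ᵐ z : ℂ, ‖z‖ ≠ R x₀ ((‖z‖⁻¹ : ℝ) • z) := by
      rw [ae_iff]
      simpa using h0
    filter_upwards [h1] with z hz
    rcases lt_or_gt_of_ne hz with h | h
    · have h2 : ∀ᶠ x in nhds x₀, ‖z‖ < R x ((‖z‖⁻¹ : ℝ) • z) :=
        (hRz _).continuousAt.eventually (lt_mem_nhds h)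
      have h3 : (fun x => F x z) =ᶠ[nhds x₀] fun x => (PB (R x)).indicator (F x) z := by
        filter_upwards [h2] with x hx
        have : z ∈ PB (R x) := hx.le
        rw [Set.indicator_of_mem this]
      exact (hFz z).continuousAt.congr h3
    · have h2 : ∀ᶠ x in nhds x₀, R x ((‖z‖⁻¹ : ℝ) • z) < ‖z‖ :=
        (hRz _).continuousAt.eventually (gt_mem_nhds h)
      have h3 : (fun _ => (0:ℂ)) =ᶠ[nhds x₀] fun x => (PB (R x)).indicator (F x) z := by
        filter_upwards [h2] with x hx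
        have : z ∉ PB (R x) := fun h4 => absurd (show ‖z‖ ≤ R x ((‖z‖⁻¹ : ℝ) • z) from h4) (not_le.2 hx)
        rw [Set.indicator_of_notMem this]
      exact continuousAt_const.congr h3

end NS_C0

alias C0 := NS_C0.C0

end Pool.Agent.Helper7.Sec
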