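import Pool.Agent.Helper7.Sec.Defs

set_option autoImplicit false
open MeasureTheory Set
open scoped ComplexConjugate
noncomputable section
namespace Pool.Agent.Helper7.Sec

namespace NS_C1

-- TARGET
theorem C1 (r : ℂ → ℝ) (hr : Continuous r) (hpos : ∀ z, 0 < r z) :
    IsCompact (PB r) ∧ (0 : ℂ) ∈ interior (PB r) ∧ PB r ⊆ closure (interior (PB r)) ∧
    (∀ z ∈ PB r, ∀ t : ℝ, 0 ≤ t → t ≤ 1 → (t : ℂ) * z ∈ PB r) := by
  set g : ℂ → ℝ := fun z => r ((‖z‖⁻¹ : ℝ) • z) with hg
  have hPB : ∀ z, z ∈ PB r ↔ ‖z‖ ≤ g z := fun z => Iff.rfl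
  have hcomp : IsCompact (Metric.closedBall (0 : ℂ) 1) := isCompact_closedBall 0 1
  have hne : (Metric.closedBall (0 : ℂ) 1).Nonempty := ⟨0, by simp⟩
  obtain ⟨wa, _, hwa⟩ := hcomp.exists_isMinOn hne hr.continuousOn
  obtain ⟨wb, _, hwb⟩ := hcomp.exists_isMaxOn hne hr.continuousOn
  have hdir : ∀ z : ℂ, (‖z‖⁻¹ : ℝ) • z ∈ Metric.closedBall (0 : ℂ) 1 := by
    intro z
    rw [mem_closedBall_zero_iff, norm_smul, norm_inv, norm_norm]
    rcases eq_or_ne z 0 with h | h
    · rw [h]
      simp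
    · rw [inv_mul_cancel₀ (norm_ne_zero_iff.mpr h)]
  have hga : ∀ z, r wa ≤ g z := fun z => hwa (hdir z)
  have hgb : ∀ z, g z ≤ r wb := fun z => hwb (hdir z)
  have ha : 0 < r wa := hpos wa
  have hgc : ∀ z, z ≠ 0 → ContinuousAt g z := by
    intro z hz
    refine hr.continuousAt.comp ?_
    exact (continuous_norm.continuousAt.inv₀ (norm_ne_zero_iff.mpr hz)).smul continuousAt_id
  have h0 : (0 : ℂ) ∈ interior (PB r) := by
    rw [mem_interior_iff_mem_nhds]
    refine Filter.mem_of_superset (Metric.ball_mem_nhds 0 ha) fun z hz => ?_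
    rw [hPB]
    rw [mem_ball_zero_iff] at hz
    exact hz.le.trans (hga z)
  have hgt : ∀ (z : ℂ) (t : ℝ), 0 < t → g ((t : ℂ) * z) = g z := by
    intro z t ht
    show r ((‖(t : ℂ) * z‖⁻¹ : ℝ) • ((t : ℂ) * z)) = r ((‖z‖⁻¹ : ℝ) • z)
    congr 1
    rw [norm_mul, Complex.norm_real, Real.norm_of_nonneg ht.le, ← Complex.real_smul, smul_smul]
    congr 1
    rw [mul_inv, mul_right_comm, inv_mul_cancel₀ ht.ne', one_mul]
  have hstar : ∀ z ∈ PB r, ∀ t : ℝ, 0 ≤ t → t ≤ 1 → (t : ℂ) * z ∈ PB r := by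
    intro z hz t ht0 ht1
    rcases ht0.eq_or_lt with h | h
    · rw [← h, Complex.ofReal_zero, zero_mul]
      exact interior_subset h0
    · rw [hPB, hgt z t h, norm_mul, Complex.norm_real, Real.norm_of_nonneg h.le]
      rw [hPB] at hz
      exact (mul_le_of_le_one_left (norm_nonneg z) ht1).trans hz
  refine ⟨?_, h0, ?_, hstar⟩
  · refine Metric.isCompact_of_isClosed_isBounded ?_ ?_
    · rw [← isOpen_compl_iff, isOpen_iff_mem_nhds]
      intro z hz
      have hz' : g z < ‖z‖ := not_le.mp hz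
      have hz0 : z ≠ 0 := by
        rintro rfl
        rw [norm_zero] at hz'
        exact absurd (ha.trans_le (hga 0)) (not_lt.mpr hz'.le)
      have h1 := (hgc z hz0).eventually_lt continuous_norm.continuousAt hz'
      filter_upwards [h1] with w hw
      exact not_le.mpr hw
    · refine Metric.isBounded_closedBall.subset (s := PB r) (t := Metric.closedBall (0 : ℂ) (r wb)) fun z hz => ?_
      rw [mem_closedBall_zero_iff]
      exact ((hPB z).mp hz).trans (hgb z)
  · intro z hz
    rcases eq_or_ne z 0 with h | h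
    · rw [h]
      exact subset_closure h0
    · have hT : Filter.Tendsto (fun t : ℝ => (t : ℂ) * z) (nhdsWithin 1 (Set.Iio 1)) (nhds z) := by
        have h1 : Continuous (fun t : ℝ => (t : ℂ) * z) :=
          Complex.continuous_ofReal.mul continuous_const
        have h2 := h1.tendsto 1
        rw [Complex.ofReal_one, one_mul] at h2
        exact h2.mono_left nhdsWithin_le_nhds
      refine mem_closure_of_tendsto hT ?_
      filter_upwards [Ioo_mem_nhdsLT (show (0 : ℝ) < 1 by norm_num)] with t ht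
      rw [mem_interior_iff_mem_nhds]
      have htz : (t : ℂ) * z ≠ 0 := mul_ne_zero (by exact_mod_cast ht.1.ne') h
      have hlt : ‖(t : ℂ) * z‖ < g ((t : ℂ) * z) := by
        rw [hgt z t ht.1, norm_mul, Complex.norm_real, Real.norm_of_nonneg ht.1.le]
        exact (mul_lt_of_lt_one_left (norm_pos_iff.mpr h) ht.2).trans_le hz
      have h1 := (continuous_norm.continuousAt (x := (t : ℂ) * z)).eventually_lt (hgc _ htz) hlt
      filter_upwards [h1] with w hw
      exact hw.le

end NS_C1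

alias C1 := NS_C1.C1

end Pool.Agent.Helper7.Sec
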