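import Pool.Agent.Helper7.Sec.Defs
import Pool.Agent.Helper7.Sec.A1
import Pool.Agent.Helper7.Sec.C0
import Pool.Agent.Helper7.Sec.C1

set_option autoImplicit false
open MeasureTheory Set
open scoped ComplexConjugate
noncomputable section
namespace Pool.Agent.Helper7.Sec

namespace NS_C2

-- TARGET
theorem C2_sec (R : ℝ × ℝ → ℂ → ℝ) (hR : Continuous (fun q : (ℝ × ℝ) × ℂ => R q.1 q.2))
    (x : ℝ × ℝ) : Continuous (R x) :=
  hR.comp (continuous_const.prodMk continuous_id)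

theorem C2_area (R : ℝ × ℝ → ℂ → ℝ) (hR : Continuous (fun q : (ℝ × ℝ) × ℂ => R q.1 q.2))
    (hpos : ∀ x z, 0 < R x z) :
    Continuous (fun x => (volume : Measure ℂ).real (PB (R x))) ∧
      ∀ x, 0 < (volume : Measure ℂ).real (PB (R x)) := by
  constructor
  · have h1 := C0 R hR hpos (fun _ _ => 1) continuous_const
    have h2 : ∀ x, ∫ _z in PB (R x), (1 : ℂ) = (((volume : Measure ℂ).real (PB (R x)) : ℝ) : ℂ) := by
      intro x
      simp
    simp only [h2] at h1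
    have h3 := Complex.continuous_re.comp h1
    refine h3.congr fun x => ?_
    simp
  · intro x
    obtain ⟨hc, hi, _⟩ := C1 (R x) (C2_sec R hR x) (hpos x)
    unfold Measure.real
    apply ENNReal.toReal_pos
    · exact (Measure.measure_pos_of_nonempty_interior _ ⟨0, hi⟩).ne'
    · exact hc.measure_lt_top.ne

theorem C2_avg (R : ℝ × ℝ → ℂ → ℝ) (hR : Continuous (fun q : (ℝ × ℝ) × ℂ => R q.1 q.2))
    (hpos : ∀ x z, 0 < R x z)
    (F : ℝ × ℝ → ℂ → ℂ) (hF : Continuous (fun q : (ℝ × ℝ) × ℂ => F q.1 q.2)) :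
    Continuous (fun x => ⨍ z in PB (R x), F x z) := by
  obtain ⟨ha, hp⟩ := C2_area R hR hpos
  simp only [setAverage_eq]
  exact (ha.inv₀ (fun x => (hp x).ne')).smul (C0 R hR hpos F hF)

theorem C2_avgR (R : ℝ × ℝ → ℂ → ℝ) (hR : Continuous (fun q : (ℝ × ℝ) × ℂ => R q.1 q.2))
    (hpos : ∀ x z, 0 < R x z)
    (F : ℝ × ℝ → ℂ → ℝ) (hF : Continuous (fun q : (ℝ × ℝ) × ℂ => F q.1 q.2)) :
    Continuous (fun x => ⨍ z in PB (R x), F x z) := by
  obtain ⟨ha, hp⟩ := C2_area R hR hpos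
  simp only [setAverage_eq]
  refine (ha.inv₀ (fun x => (hp x).ne')).smul ?_
  have h1 := C0 R hR hpos (fun x z => ((F x z : ℝ) : ℂ)) (Complex.continuous_ofReal.comp hF)
  have h3 := Complex.continuous_re.comp h1
  refine h3.congr fun x => ?_
  have h4 : ∫ z in PB (R x), ((F x z : ℝ) : ℂ) = ((∫ z in PB (R x), F x z : ℝ) : ℂ) :=
    integral_ofReal
  simp only [Function.comp]
  rw [h4, Complex.ofReal_re]

theorem C2 (R : ℝ × ℝ → ℂ → ℝ) (hR : Continuous (fun q : (ℝ × ℝ) × ℂ => R q.1 q.2)) (hpos : ∀ x z, 0 < R x z)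
    (m j : ℕ) : Continuous (fun x => M (PB (R x)) m j) := by
  have hcen : Continuous (fun x => cen (PB (R x))) :=
    C2_avg R hR hpos (fun _ z => z) continuous_snd
  have hcen' : Continuous (fun q : (ℝ × ℝ) × ℂ => cen (PB (R q.1))) := hcen.comp continuous_fst
  have hz : Continuous (fun q : (ℝ × ℝ) × ℂ => q.2 - cen (PB (R q.1))) := continuous_snd.sub hcen'
  have hS2 : Continuous (fun x => S2 (PB (R x))) :=
    C2_avg R hR hpos (fun x z => (z - cen (PB (R x))) ^ 2) (hz.pow 2)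
  have hS0 : Continuous (fun x => S0 (PB (R x))) :=
    C2_avgR R hR hpos (fun x z => ‖z - cen (PB (R x))‖ ^ 2) (hz.norm.pow 2)
  have hlt : ∀ x, ‖S2 (PB (R x))‖ < S0 (PB (R x)) := by
    intro x
    obtain ⟨hc, hi, _⟩ := C1 (R x) (C2_sec R hR x) (hpos x)
    exact A1 _ hc ⟨0, hi⟩
  have hden : ∀ x, 0 < S0 (PB (R x)) + Real.sqrt (S0 (PB (R x)) ^ 2 - ‖S2 (PB (R x))‖ ^ 2) := by
    intro x
    have h1 := hlt x
    have h2 := norm_nonneg (S2 (PB (R x)))
    have h3 := Real.sqrt_nonneg (S0 (PB (R x)) ^ 2 - ‖S2 (PB (R x))‖ ^ 2)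
    linarith
  have hkap : Continuous (fun x => kap (PB (R x))) := by
    unfold kap
    refine hS2.div ?_ ?_
    · exact Complex.continuous_ofReal.comp
        (hS0.add (Real.continuous_sqrt.comp ((hS0.pow 2).sub (hS2.norm.pow 2))))
    · intro x
      exact_mod_cast (hden x).ne'
  have hkap' : Continuous (fun q : (ℝ × ℝ) × ℂ => kap (PB (R q.1))) := hkap.comp continuous_fst
  have hNor : Continuous (fun q : (ℝ × ℝ) × ℂ => Nor (PB (R q.1)) q.2) :=
    hz.sub (hkap'.mul (Complex.continuous_conj.comp hz))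
  exact C2_avg R hR hpos
    (fun x z => (Nor (PB (R x)) z) ^ m * ((‖Nor (PB (R x)) z‖ : ℝ) : ℂ) ^ (2 * j))
    ((hNor.pow m).mul ((Complex.continuous_ofReal.comp hNor.norm).pow (2 * j)))

end NS_C2

alias C2 := NS_C2.C2

end Pool.Agent.Helper7.Sec
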