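import Mathlib

set_option autoImplicit false
open MeasureTheory Set
open scoped ComplexConjugate
noncomputable section
namespace Pool.Agent.Helper7.Sec

/-- planar star body with radial function `r` -/
def PB (r : ℂ → ℝ) : Set ℂ := {z | ‖z‖ ≤ r ((‖z‖⁻¹ : ℝ) • z)}
/-- centroid -/
def cen (P : Set ℂ) : ℂ := ⨍ z in P, z
/-- second moments about the centroid -/
def S0 (P : Set ℂ) : ℝ := ⨍ z in P, ‖z - cen P‖ ^ 2
def S2 (P : Set ℂ) : ℂ := ⨍ z in P, (z - cen P) ^ 2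
def kap (P : Set ℂ) : ℂ := S2 P / ((S0 P + Real.sqrt (S0 P ^ 2 - ‖S2 P‖ ^ 2) : ℝ) : ℂ)
/-- normalising real-affine map of `P`: the image has isotropic covariance -/
def Nor (P : Set ℂ) (z : ℂ) : ℂ := (z - cen P) - kap P * conj (z - cen P)
/-- normalised moments -/
def M (P : Set ℂ) (m j : ℕ) : ℂ := ⨍ z in P, (Nor P z) ^ m * ((‖Nor P z‖ : ℝ) : ℂ) ^ (2 * j)

end Pool.Agent.Helper7.Sec
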