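import Pool.Agent.Helper7.Sec.Defs

set_option autoImplicit false
open MeasureTheory Set
open scoped ComplexConjugate
noncomputable section
namespace Pool.Agent.Helper7.Sec

namespace NS_E1

-- TARGET
theorem E1_zero (Q : Set ℂ) (h : ∀ m j : ℕ, 1 ≤ m → ∫ z in Q, z ^ m * ((‖z‖ : ℝ) : ℂ) ^ (2 * j) = 0)
    (a b : ℕ) (hab : b < a) : ∫ z in Q, z ^ a * (conj z) ^ b = 0 := by
  rw [← h (a - b) b (by omega)]
  congr 1
  funext z
  have e : z ^ a = z ^ (a - b) * z ^ b := by rw [← pow_add]; congr 1; omega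
  rw [e, mul_assoc, ← mul_pow, Complex.mul_conj', ← pow_mul]

theorem E1_mono (Q : Set ℂ) (h : ∀ m j : ℕ, 1 ≤ m → ∫ z in Q, z ^ m * ((‖z‖ : ℝ) : ℂ) ^ (2 * j) = 0)
    (w : ℂ) (hw : ‖w‖ = 1) (a b : ℕ) :
    ∫ z in Q, (w * z) ^ a * (conj (w * z)) ^ b = ∫ z in Q, z ^ a * (conj z) ^ b := by
  have e : ∀ z : ℂ, (w * z) ^ a * (conj (w * z)) ^ b =
      (w ^ a * (conj w) ^ b) * (z ^ a * (conj z) ^ b) := by
    intro z
    rw [map_mul, mul_pow, mul_pow]
    ring
  simp only [e]
  rw [integral_const_mul]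
  rcases lt_trichotomy a b with hab | hab | hab
  · have h0 : ∫ z in Q, z ^ a * (conj z) ^ b = 0 := by
      have e1 : ∀ z : ℂ, z ^ a * (conj z) ^ b = conj (z ^ b * (conj z) ^ a) := by
        intro z
        rw [map_mul, map_pow, map_pow, Complex.conj_conj, mul_comm]
      simp only [e1]
      rw [integral_conj, E1_zero Q h b a hab, map_zero]
    rw [h0, mul_zero]
  · subst hab
    have h1 : w ^ a * (conj w) ^ a = 1 := by
      rw [← mul_pow, Complex.mul_conj', hw]
      simp
    rw [h1, one_mul]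
  · rw [E1_zero Q h a b hab, mul_zero]

theorem E1_cont (P : MvPolynomial (Fin 2) ℂ) :
    Continuous fun z : ℂ => MvPolynomial.eval ![z, conj z] P := by
  have h1 : Continuous fun z : ℂ => (![z, conj z] : Fin 2 → ℂ) := by
    apply continuous_pi
    intro i
    fin_cases i
    · exact continuous_id
    · exact Complex.continuous_conj
  exact (MvPolynomial.continuous_eval P).comp h1

theorem E1_poly (Q : Set ℂ) (hQ : IsCompact Q)
    (h : ∀ m j : ℕ, 1 ≤ m → ∫ z in Q, z ^ m * ((‖z‖ : ℝ) : ℂ) ^ (2 * j) = 0)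
    (w : ℂ) (hw : ‖w‖ = 1) (P : MvPolynomial (Fin 2) ℂ) :
    ∫ z in Q, MvPolynomial.eval ![w * z, conj (w * z)] P =
      ∫ z in Q, MvPolynomial.eval ![z, conj z] P := by
  have hint : ∀ P : MvPolynomial (Fin 2) ℂ,
      Integrable (fun z => MvPolynomial.eval ![z, conj z] P) (volume.restrict Q) :=
    fun P => (E1_cont P).continuousOn.integrableOn_compact hQ
  have hint' : ∀ P : MvPolynomial (Fin 2) ℂ,
      Integrable (fun z => MvPolynomial.eval ![w * z, conj (w * z)] P) (volume.restrict Q) :=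
    fun P => ((E1_cont P).comp (continuous_const.mul continuous_id)).continuousOn.integrableOn_compact
      hQ
  induction P using MvPolynomial.induction_on' with
  | monomial u c =>
    have e : ∀ z : ℂ, MvPolynomial.eval ![z, conj z] (MvPolynomial.monomial u c) =
        c * (z ^ (u 0) * (conj z) ^ (u 1)) := by
      intro z
      rw [MvPolynomial.eval_monomial, Finsupp.prod_fintype _ _ (by simp), Fin.prod_univ_two]
      rfl
    simp only [e]
    rw [integral_const_mul, integral_const_mul, E1_mono Q h w hw]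
  | add p q hp hq =>
    simp only [map_add]
    rw [integral_add (hint' p) (hint' q), integral_add (hint p) (hint q), hp, hq]

theorem E1_dens (R : ℝ) (f : ℂ → ℝ) (hf : Continuous f) (ε : ℝ) (hε : 0 < ε) :
    ∃ P : MvPolynomial (Fin 2) ℂ, ∀ z ∈ Metric.closedBall (0 : ℂ) R,
      ‖((f z : ℝ) : ℂ) - MvPolynomial.eval ![z, conj z] P‖ ≤ ε := by
  haveI : CompactSpace (Metric.closedBall (0 : ℂ) R) :=
    isCompact_iff_compactSpace.mp (isCompact_closedBall 0 R)
  let F : C(Metric.closedBall (0 : ℂ) R, ℂ) :=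
    ⟨fun z => ((f z : ℝ) : ℂ), by fun_prop⟩
  have htop := ContinuousMap.elemental_id_eq_top (𝕜 := ℂ) (Metric.closedBall (0 : ℂ) R)
  have hF : F ∈ StarAlgebra.elemental ℂ
      (ContinuousMap.restrict (Metric.closedBall (0 : ℂ) R) (.id ℂ)) := by
    rw [htop]
    exact StarSubalgebra.mem_top
  have hF' : F ∈ closure ((StarAlgebra.adjoin ℂ
      {ContinuousMap.restrict (Metric.closedBall (0 : ℂ) R) (.id ℂ)} :
        StarSubalgebra ℂ C(Metric.closedBall (0 : ℂ) R, ℂ)) :
        Set C(Metric.closedBall (0 : ℂ) R, ℂ)) := hF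
  obtain ⟨g, hg, hgF⟩ := Metric.mem_closure_iff.mp hF' ε hε
  have hg' : g ∈ Algebra.adjoin ℂ
      (({ContinuousMap.restrict (Metric.closedBall (0 : ℂ) R) (.id ℂ)} :
        Set C(Metric.closedBall (0 : ℂ) R, ℂ)) ∪
        star {ContinuousMap.restrict (Metric.closedBall (0 : ℂ) R) (.id ℂ)}) := by
    rw [← StarAlgebra.adjoin_toSubalgebra]
    exact hg
  have hq : ∀ g ∈ Algebra.adjoin ℂ
      (({ContinuousMap.restrict (Metric.closedBall (0 : ℂ) R) (.id ℂ)} :
        Set C(Metric.closedBall (0 : ℂ) R, ℂ)) ∪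
        star {ContinuousMap.restrict (Metric.closedBall (0 : ℂ) R) (.id ℂ)}),
      ∃ P : MvPolynomial (Fin 2) ℂ, ∀ z : Metric.closedBall (0 : ℂ) R,
        g z = MvPolynomial.eval ![(z : ℂ), conj (z : ℂ)] P := by
    intro g hg
    induction hg using Algebra.adjoin_induction with
    | mem x hx =>
      rcases hx with hx | hx
      · rw [Set.mem_singleton_iff] at hx
        refine ⟨MvPolynomial.X 0, fun z => ?_⟩
        rw [hx, MvPolynomial.eval_X]
        rfl
      · rw [Set.mem_star, Set.mem_singleton_iff] at hx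
        refine ⟨MvPolynomial.X 1, fun z => ?_⟩
        have : x = star (ContinuousMap.restrict (Metric.closedBall (0 : ℂ) R) (.id ℂ)) := by
          rw [← hx, star_star]
        rw [this, MvPolynomial.eval_X]
        rfl
    | algebraMap r =>
      refine ⟨MvPolynomial.C r, fun z => ?_⟩
      rw [MvPolynomial.eval_C]
      rfl
    | add x y _ _ hx hy =>
      obtain ⟨P, hP⟩ := hx
      obtain ⟨S, hS⟩ := hy
      refine ⟨P + S, fun z => ?_⟩
      rw [map_add, ContinuousMap.add_apply, hP, hS]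
    | mul x y _ _ hx hy =>
      obtain ⟨P, hP⟩ := hx
      obtain ⟨S, hS⟩ := hy
      refine ⟨P * S, fun z => ?_⟩
      rw [map_mul, ContinuousMap.mul_apply, hP, hS]
  obtain ⟨P, hP⟩ := hq g hg'
  refine ⟨P, fun z hz => ?_⟩
  have h1 : dist (F ⟨z, hz⟩) (g ⟨z, hz⟩) ≤ ε :=
    (ContinuousMap.dist_apply_le_dist (f := F) (g := g) ⟨z, hz⟩).trans hgF.le
  rw [dist_eq_norm, hP] at h1
  exact h1

theorem E1 (Q : Set ℂ) (hQ : IsCompact Q) (h : ∀ m j : ℕ, 1 ≤ m → ∫ z in Q, z ^ m * ((‖z‖ : ℝ) : ℂ) ^ (2 * j) = 0)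
    (w : ℂ) (hw : ‖w‖ = 1) (f : ℂ → ℝ) (hf : Continuous f) :
    ∫ z in Q, f (w * z) = ∫ z in Q, f z := by
  obtain ⟨R, hR⟩ := hQ.isBounded.subset_closedBall (0 : ℂ)
  have hvol : volume Q < ⊤ := hQ.measure_lt_top
  have hkey : ∀ ε : ℝ, 0 < ε →
      ‖((∫ z in Q, f (w * z) : ℝ) : ℂ) - ((∫ z in Q, f z : ℝ) : ℂ)‖ ≤
        2 * ε * (volume.real Q) := by
    intro ε hε
    obtain ⟨P, hP⟩ := E1_dens R f hf ε hε
    have i1 : IntegrableOn (fun z => ((f (w * z) : ℝ) : ℂ)) Q :=
      (by fun_prop : Continuous fun z => ((f (w * z) : ℝ) : ℂ)).continuousOn.integrableOn_compact hQ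
    have i2 : IntegrableOn (fun z => ((f z : ℝ) : ℂ)) Q :=
      (by fun_prop : Continuous fun z => ((f z : ℝ) : ℂ)).continuousOn.integrableOn_compact hQ
    have i3 : IntegrableOn (fun z => MvPolynomial.eval ![w * z, conj (w * z)] P) Q :=
      ((E1_cont P).comp (continuous_const.mul continuous_id)).continuousOn.integrableOn_compact hQ
    have i4 : IntegrableOn (fun z => MvPolynomial.eval ![z, conj z] P) Q :=
      (E1_cont P).continuousOn.integrableOn_compact hQ
    have e1 : ((∫ z in Q, f (w * z) : ℝ) : ℂ) - ((∫ z in Q, f z : ℝ) : ℂ) =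
        (∫ z in Q, (((f (w * z) : ℝ) : ℂ) - MvPolynomial.eval ![w * z, conj (w * z)] P)) -
        ∫ z in Q, (((f z : ℝ) : ℂ) - MvPolynomial.eval ![z, conj z] P) := by
      have r1 : ∫ z in Q, ((f (w * z) : ℝ) : ℂ) = ((∫ z in Q, f (w * z) : ℝ) : ℂ) :=
        integral_ofReal (𝕜 := ℂ)
      have r2 : ∫ z in Q, ((f z : ℝ) : ℂ) = ((∫ z in Q, f z : ℝ) : ℂ) :=
        integral_ofReal (𝕜 := ℂ)
      rw [integral_sub i1 i3, integral_sub i2 i4, E1_poly Q hQ h w hw P, r1, r2]
      ring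
    rw [e1]
    have b1 : ‖∫ z in Q, (((f (w * z) : ℝ) : ℂ) - MvPolynomial.eval ![w * z, conj (w * z)] P)‖ ≤
        ε * volume.real Q := by
      apply norm_setIntegral_le_of_norm_le_const hvol
      intro z hz
      apply hP
      have := hR hz
      rw [mem_closedBall_zero_iff] at this ⊢
      rw [norm_mul, hw, one_mul]
      exact this
    have b2 : ‖∫ z in Q, (((f z : ℝ) : ℂ) - MvPolynomial.eval ![z, conj z] P)‖ ≤
        ε * volume.real Q := by
      apply norm_setIntegral_le_of_norm_le_const hvol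
      intro z hz
      exact hP z (hR hz)
    refine (norm_sub_le _ _).trans ?_
    linarith
  have hzero : ‖((∫ z in Q, f (w * z) : ℝ) : ℂ) - ((∫ z in Q, f z : ℝ) : ℂ)‖ ≤ 0 := by
    apply le_of_forall_pos_le_add
    intro η hη
    have hV : 0 ≤ volume.real Q := measureReal_nonneg
    have h1 := hkey (η / (2 * (volume.real Q + 1))) (by positivity)
    have h2 : 2 * (η / (2 * (volume.real Q + 1))) * volume.real Q ≤ η := by
      calc 2 * (η / (2 * (volume.real Q + 1))) * volume.real Q ≤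
            2 * (η / (2 * (volume.real Q + 1))) * (volume.real Q + 1) :=
            mul_le_mul_of_nonneg_left (by linarith) (by positivity)
        _ = η := by field_simp
    linarith
  have h0 := sub_eq_zero.mp (norm_le_zero_iff.mp hzero)
  exact_mod_cast h0

end NS_E1

alias E1 := NS_E1.E1

end Pool.Agent.Helper7.Sec
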