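import Pool.Agent.Helper7.Sec.Defs

set_option autoImplicit false
open MeasureTheory Set
open scoped ComplexConjugate
noncomputable section
namespace Pool.Agent.Helper7.Sec

namespace NS_E2

theorem E2_aux (Q R : Set ℂ) (hR : IsCompact R)
    (hQ' : Q ⊆ closure (interior Q))
    (h : ∀ f : ℂ → ℝ, Continuous f → ∫ z in Q, f z = ∫ z in R, f z) : Q ⊆ R := by
  have key : interior Q ⊆ R := by
    intro x hx
    by_contra hxR
    have hU : IsOpen (interior Q ∩ Rᶜ) := isOpen_interior.inter hR.isClosed.isOpen_compl
    obtain ⟨ε, hε, hb⟩ := Metric.isOpen_iff.1 hU x ⟨hx, hxR⟩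
    set f : ℂ → ℝ := fun z => max 0 (ε - dist z x) with hf
    have hc : Continuous f := by rw [hf]; fun_prop
    have hout : ∀ z, z ∉ Metric.ball x ε → f z = 0 := by
      intro z hz
      rw [Metric.mem_ball, not_lt] at hz
      exact max_eq_left (by linarith)
    have hR0 : ∫ z in R, f z = 0 := by
      rw [setIntegral_congr_fun hR.measurableSet (g := fun _ => (0:ℝ))]
      · simp
      · intro z hz
        exact hout z fun hzb => (hb hzb).2 hz
    have hQ0 : ∫ z in Q, f z = ∫ z, f z := by
      apply setIntegral_eq_integral_of_forall_compl_eq_zero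
      intro z hz
      exact hout z fun hzb => hz (interior_subset (hb hzb).1)
    have hpos : 0 < ∫ z, f z := by
      apply Continuous.integral_pos_of_hasCompactSupport_nonneg_nonzero hc
      · refine HasCompactSupport.intro (isCompact_closedBall x ε) ?_
        intro z hz
        exact hout z fun hzb => hz (Metric.ball_subset_closedBall hzb)
      · intro z; exact le_max_left _ _
      · show f x ≠ 0
        rw [hf]
        simp only [dist_self, sub_zero]
        rw [max_eq_right hε.le]
        exact hε.ne'
    rw [← hQ0, h f hc, hR0] at hpos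
    exact lt_irrefl _ hpos
  exact hQ'.trans (closure_minimal key hR.isClosed)

-- TARGET
theorem E2 (Q R : Set ℂ) (hQ : IsCompact Q) (hR : IsCompact R) (hQ' : Q ⊆ closure (interior Q)) (hR' : R ⊆ closure (interior R))
    (h : ∀ f : ℂ → ℝ, Continuous f → ∫ z in Q, f z = ∫ z in R, f z) : Q = R :=
  Set.Subset.antisymm (E2_aux Q R hR hQ' h) (E2_aux R Q hQ hR' fun f hf => (h f hf).symm)

end NS_E2

alias E2 := NS_E2.E2

end Pool.Agent.Helper7.Sec
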