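import Pool.Agent.Helper7.Sec.Defs

set_option autoImplicit false
open MeasureTheory Set
open scoped ComplexConjugate
noncomputable section
namespace Pool.Agent.Helper7.Sec

namespace NS_E3

-- TARGET
theorem E3 (Q : Set ℂ) (hQ : IsCompact Q) (hi : (interior Q).Nonempty) (hrot : ∀ w : ℂ, ‖w‖ = 1 → ∀ z ∈ Q, w * z ∈ Q)
    (o : ℂ) (ho : o ∈ Q) (hst : ∀ z ∈ Q, segment ℝ o z ⊆ Q) :
    ∃ b : ℝ, 0 < b ∧ Q = Metric.closedBall 0 b := by
  have hmo : -o ∈ Q := by
    have := hrot (-1) (by simp) o ho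
    simpa using this
  have h0 : (0 : ℂ) ∈ Q := by
    apply hst _ hmo
    refine ⟨1 / 2, 1 / 2, by norm_num, by norm_num, by norm_num, ?_⟩
    simp
  obtain ⟨z, hz, hmax⟩ := hQ.exists_isMaxOn ⟨o, ho⟩ continuous_norm.continuousOn
  have hmax' : ∀ y ∈ Q, ‖y‖ ≤ ‖z‖ := fun y hy => hmax hy
  refine ⟨‖z‖, ?_, ?_⟩
  · by_contra hneg
    have hz0 : ‖z‖ ≤ 0 := not_lt.mp hneg
    have hsub : Q ⊆ {0} := by
      intro y hy
      have := (hmax' y hy).trans hz0
      simpa using this
    have h2 : interior Q ⊆ interior ({0} : Set ℂ) := interior_mono hsub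
    rw [interior_singleton] at h2
    obtain ⟨x, hx⟩ := hi
    exact h2 hx
  · apply Subset.antisymm
    · intro y hy
      simpa using hmax' y hy
    · intro y hy
      have hy' : ‖y‖ ≤ ‖z‖ := by simpa using hy
      have hpre : IsPreconnected (segment ℝ o 0 ∪ segment ℝ o z) :=
        IsPreconnected.union o (left_mem_segment ℝ o 0) (left_mem_segment ℝ o z)
          (convex_segment o 0).isPreconnected (convex_segment o z).isPreconnected
      have hsubQ : segment ℝ o 0 ∪ segment ℝ o z ⊆ Q := union_subset (hst 0 h0) (hst z hz)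
      have hiv := hpre.intermediate_value (Or.inl (right_mem_segment ℝ o 0))
        (Or.inr (right_mem_segment ℝ o z)) (f := fun x => ‖x‖) continuous_norm.continuousOn
      obtain ⟨x, hx, hxy⟩ := hiv (show ‖y‖ ∈ Icc ‖(0 : ℂ)‖ ‖z‖ from ⟨by simp, hy'⟩)
      simp only at hxy
      by_cases hx0 : x = 0
      · subst hx0
        rw [norm_zero] at hxy
        have : y = 0 := norm_eq_zero.mp hxy.symm
        rw [this]
        exact h0
      · have hw : ‖y / x‖ = 1 := by
          rw [norm_div, ← hxy, div_self (norm_ne_zero_iff.mpr hx0)]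
        have := hrot (y / x) hw x (hsubQ hx)
        rwa [div_mul_cancel₀ y hx0] at this

end NS_E3

alias E3 := NS_E3.E3

end Pool.Agent.Helper7.Sec
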