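import Pool.Agent.Helper7.Sec.Defs
import Pool.Agent.Helper7.Sec.A1
import Pool.Agent.Helper7.Sec.A2b
import Pool.Agent.Helper7.Sec.C1
import Pool.Agent.Helper7.Sec.E1
import Pool.Agent.Helper7.Sec.E2
import Pool.Agent.Helper7.Sec.E3

set_option autoImplicit false
open MeasureTheory Set
open scoped ComplexConjugate
noncomputable section
namespace Pool.Agent.Helper7.Sec

namespace NS_E4

/-- the real-linear part -/
def LL (k : ℂ) : ℂ →L[ℝ] ℂ :=
  ContinuousLinearMap.id ℝ ℂ - (ContinuousLinearMap.mul ℝ ℂ k).comp (Complex.conjCLE : ℂ →L[ℝ] ℂ)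

theorem LL_apply (k w : ℂ) : LL k w = w - k * conj w := by
  simp [LL]

/-- the homeomorphism -/
def NH (c k : ℂ) (hk : ‖k‖ < 1) : ℂ ≃ₜ ℂ where
  toFun z := (z - c) - k * conj (z - c)
  invFun w := (w + k * conj w) / ((1 - ‖k‖ ^ 2 : ℝ) : ℂ) + c
  left_inv z := by
    have h1 : ((1 - ‖k‖ ^ 2 : ℝ) : ℂ) ≠ 0 := by
      have : (0 : ℝ) < 1 - ‖k‖ ^ 2 := by nlinarith [norm_nonneg k]
      exact_mod_cast this.ne'
    have h2 : k * conj k = ((‖k‖ ^ 2 : ℝ) : ℂ) := by
      rw [Complex.mul_conj, Complex.normSq_eq_norm_sq]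
    have h3 : (z - c) - k * conj (z - c) + k * conj ((z - c) - k * conj (z - c)) =
        ((1 - ‖k‖ ^ 2 : ℝ) : ℂ) * (z - c) := by
      simp only [map_sub, map_mul, Complex.conj_conj]
      have : ((1 - ‖k‖ ^ 2 : ℝ) : ℂ) = 1 - k * conj k := by rw [h2]; push_cast; ring
      rw [this]
      ring
    beta_reduce
    rw [h3, mul_div_cancel_left₀ _ h1]
    ring
  right_inv w := by
    have h1 : ((1 - ‖k‖ ^ 2 : ℝ) : ℂ) ≠ 0 := by
      have : (0 : ℝ) < 1 - ‖k‖ ^ 2 := by nlinarith [norm_nonneg k]
      exact_mod_cast this.ne'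
    have h2 : k * conj k = ((‖k‖ ^ 2 : ℝ) : ℂ) := by
      rw [Complex.mul_conj, Complex.normSq_eq_norm_sq]
    have h4 : ((1 - ‖k‖ ^ 2 : ℝ) : ℂ) = 1 - k * conj k := by rw [h2]; push_cast; ring
    beta_reduce
    rw [add_sub_cancel_right, map_div₀, Complex.conj_ofReal]
    simp only [map_add, map_mul, Complex.conj_conj]
    field_simp
    rw [h4]
    ring
  continuous_toFun := by fun_prop
  continuous_invFun := by fun_prop

-- TARGET
theorem E4 (r : ℂ → ℝ) (hr : Continuous r) (hpos : ∀ z, 0 < r z) (hM : ∀ m j : ℕ, 1 ≤ m → M (PB r) m j = 0) :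
    ∃ b : ℝ, 0 < b ∧ PB r = {z | ‖Nor (PB r) z‖ ≤ b} := by
  obtain ⟨hcpt, h0, hcl, hstar⟩ := C1 r hr hpos
  set P := PB r with hP
  have hk : ‖kap P‖ < 1 := (A2b (S0 P) (S2 P) (A1 P hcpt ⟨0, h0⟩)).1
  set N := NH (cen P) (kap P) hk with hN
  have hNz : ∀ z, N z = Nor P z := fun z => rfl
  set Q := N '' P with hQ
  have hQc : IsCompact Q := hcpt.image N.continuous
  have hopen : IsOpen (N '' interior P) := N.isOpenMap _ isOpen_interior
  have hint : N '' interior P ⊆ interior Q :=
    interior_maximal (image_mono interior_subset) hopen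
  have hQcl : Q ⊆ closure (interior Q) := by
    calc Q ⊆ N '' closure (interior P) := image_mono hcl
      _ ⊆ closure (N '' interior P) := image_closure_subset_closure_image N.continuous
      _ ⊆ closure (interior Q) := closure_mono hint
  have hQi : (interior Q).Nonempty := ⟨N 0, hint ⟨0, h0, rfl⟩⟩
  -- volume of P
  have hvol : volume.real P ≠ 0 := by
    rw [Measure.real, ENNReal.toReal_ne_zero]
    refine ⟨?_, hcpt.measure_lt_top.ne⟩
    have : 0 < volume (interior P) := isOpen_interior.measure_pos _ ⟨0, h0⟩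
    exact (this.trans_le (measure_mono interior_subset)).ne'
  have hder : ∀ x ∈ P, HasFDerivWithinAt N (LL (kap P)) P x := by
    intro x _
    have h1 : HasFDerivAt (fun z : ℂ => LL (kap P) (z - cen P)) (LL (kap P)) x := by
      have h2 := (LL (kap P)).hasFDerivAt (x := x - cen P)
      have h3 : HasFDerivAt (fun z : ℂ => z - cen P) (ContinuousLinearMap.id ℝ ℂ) x :=
        (hasFDerivAt_id x).sub_const _
      exact h2.comp x h3
    have h4 : (fun z : ℂ => LL (kap P) (z - cen P)) = N := by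
      funext z
      rw [LL_apply]
      rfl
    rw [h4] at h1
    exact h1.hasFDerivWithinAt
  have hmom : ∀ m j : ℕ, 1 ≤ m → ∫ z in Q, z ^ m * ((‖z‖ : ℝ) : ℂ) ^ (2 * j) = 0 := by
    intro m j hm
    rw [hQ, integral_image_eq_integral_abs_det_fderiv_smul volume hcpt.measurableSet hder
      N.injective.injOn]
    rw [integral_smul]
    have h1 := hM m j hm
    rw [M, setAverage_eq, smul_eq_zero] at h1
    rcases h1 with h1 | h1
    · exact absurd h1 (inv_ne_zero hvol)
    · have h2 : ∫ z in P, (N z) ^ m * ((‖N z‖ : ℝ) : ℂ) ^ (2 * j) = 0 := h1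
      rw [h2, smul_zero]
  have hrot : ∀ w : ℂ, ‖w‖ = 1 → ∀ z ∈ Q, w * z ∈ Q := by
    intro w hw z hz
    set a : Circle := ⟨w, by rw [Submonoid.unitSphere]; simpa using hw⟩ with ha
    have hra : ∀ z, rotation a z = w * z := fun z => by rw [rotation_apply]
    have hR : Q = rotation a '' Q := by
      apply E2 Q _ hQc (hQc.image (rotation a).continuous) hQcl
      · have ho : IsOpen (rotation a '' interior Q) :=
          (rotation a).toHomeomorph.isOpenMap _ isOpen_interior
        have hi : rotation a '' interior Q ⊆ interior (rotation a '' Q) :=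
          interior_maximal (image_mono interior_subset) ho
        calc rotation a '' Q ⊆ rotation a '' closure (interior Q) := image_mono hQcl
          _ ⊆ closure (rotation a '' interior Q) :=
            image_closure_subset_closure_image (rotation a).continuous
          _ ⊆ _ := closure_mono hi
      · intro f hf
        have h1 := E1 Q hQc hmom w hw f hf
        have h2 := (rotation a).measurePreserving.setIntegral_image_emb
          (rotation a).toHomeomorph.measurableEmbedding f Q
        have h3 : ∫ y in rotation a '' Q, f y = ∫ x in Q, f (w * x) := by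
          rw [show (∫ x in Q, f (w * x)) = ∫ x in Q, f (rotation a x) from by
            simp only [hra]]
          exact h2
        rw [h3, h1]
    rw [hR]
    exact ⟨z, hz, hra z⟩
  have hst : ∀ z ∈ Q, segment ℝ (N 0) z ⊆ Q := by
    rintro _ ⟨p, hp, rfl⟩ y ⟨s, t, hs, ht, hst, rfl⟩
    refine ⟨(t : ℂ) * p, hstar p hp t ht (by linarith), ?_⟩
    have h1 : (s : ℂ) + (t : ℂ) = 1 := by exact_mod_cast hst
    have hs' : (s : ℂ) = 1 - t := by rw [← h1]; ring
    rw [hNz, hNz, hNz, Nor, Nor, Nor, Complex.real_smul, Complex.real_smul, hs']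
    simp only [map_sub, map_mul, Complex.conj_ofReal, map_zero]
    ring
  obtain ⟨b, hb, hQb⟩ := E3 Q hQc hQi hrot (N 0) ⟨0, interior_subset h0, rfl⟩ hst
  refine ⟨b, hb, ?_⟩
  ext z
  rw [mem_setOf_eq, ← hNz, ← mem_closedBall_zero_iff, ← hQb, hQ, N.injective.mem_set_image]

end NS_E4

alias E4 := NS_E4.E4

end Pool.Agent.Helper7.Sec
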