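import Pool.Agent.Helper7.Sec.Defs

set_option autoImplicit false
open MeasureTheory Set
open scoped ComplexConjugate
noncomputable section
namespace Pool.Agent.Helper7.Sec

namespace NS_F1

theorem F1_root (A B e ρ : ℝ) (hρ : 0 < ρ)
    (h : ∀ s : ℝ, 0 < s → (s ≤ ρ ↔ s ^ 2 * A - 2 * s * B - e ≤ 0)) :
    ρ ^ 2 * A - 2 * ρ * B = e := by
  have h1 := (h ρ hρ).1 le_rfl
  by_contra hne
  have h2 : ρ ^ 2 * A - 2 * ρ * B - e < 0 := lt_of_le_of_ne h1 (fun h3 => hne (by linarith))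
  have hc : Continuous (fun s : ℝ => s ^ 2 * A - 2 * s * B - e) := by fun_prop
  have ho : IsOpen {s : ℝ | s ^ 2 * A - 2 * s * B - e < 0} := isOpen_lt hc continuous_const
  obtain ⟨ε, hε, hb⟩ := Metric.isOpen_iff.1 ho ρ h2
  have h3 : ρ + ε / 2 ∈ Metric.ball ρ ε := by
    rw [Metric.mem_ball, Real.dist_eq, add_sub_cancel_left, abs_of_pos (by linarith)]
    linarith
  have h4 := hb h3
  have h5 := (h (ρ + ε / 2) (by linarith)).2 (le_of_lt h4)
  linarith

-- TARGET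
theorem F1 (r : ℂ → ℝ) (hr : Continuous r) (hpos : ∀ z, 0 < r z) (c k : ℂ) (hk : ‖k‖ < 1) (b : ℝ) (hb : 0 < b)
    (h : PB r = {z | ‖(z - c) - k * conj (z - c)‖ ≤ b}) :
    ∃ a1 a2 a3 d1 d2 : ℝ, ∀ z : ℂ, z ≠ 0 →
      ‖z‖ ^ 2 / (r ((‖z‖⁻¹ : ℝ) • z) * r (-((‖z‖⁻¹ : ℝ) • z))) = a1 * z.re ^ 2 + a2 * (z.re * z.im) + a3 * z.im ^ 2 ∧
      ‖z‖ * (1 / r ((‖z‖⁻¹ : ℝ) • z) - 1 / r (-((‖z‖⁻¹ : ℝ) • z))) = d1 * z.re + d2 * z.im := by
  set p : ℝ := (1 - k.re) * c.re - k.im * c.im with hp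
  set q : ℝ := (1 + k.re) * c.im - k.im * c.re with hq
  set e : ℝ := b ^ 2 - p ^ 2 - q ^ 2 with he
  have hmem : ∀ z : ℂ, z ∈ PB r ↔ ((1 - k.re) * z.re - k.im * z.im - p) ^ 2 +
      ((1 + k.re) * z.im - k.im * z.re - q) ^ 2 ≤ b ^ 2 := by
    intro z
    rw [h, Set.mem_ofPred_eq, ← sq_le_sq₀ (norm_nonneg _) hb.le, Complex.sq_norm,
      Complex.normSq_apply]
    have e1 : ((z - c) - k * conj (z - c)).re = (1 - k.re) * z.re - k.im * z.im - p := by
      simp only [Complex.sub_re, Complex.mul_re, Complex.conj_re, Complex.conj_im, Complex.sub_im, hp]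
      ring
    have e2 : ((z - c) - k * conj (z - c)).im = (1 + k.re) * z.im - k.im * z.re - q := by
      simp only [Complex.sub_re, Complex.mul_im, Complex.conj_re, Complex.conj_im, Complex.sub_im, hq]
      ring
    rw [e1, e2]
    simp only [sq]
  have hk' : k.re ^ 2 + k.im ^ 2 < 1 := by
    have h1 := Complex.sq_norm k
    rw [Complex.normSq_apply] at h1
    nlinarith [norm_nonneg k]
  have hA : ∀ u : ℂ, ‖u‖ = 1 → 0 < ((1 - k.re) * u.re - k.im * u.im) ^ 2 +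
      ((1 + k.re) * u.im - k.im * u.re) ^ 2 := by
    intro u hu
    have h1 := Complex.sq_norm u
    rw [Complex.normSq_apply, hu] at h1
    by_contra hcon
    push Not at hcon
    have hX : (1 - k.re) * u.re - k.im * u.im = 0 := by
      have : ((1 - k.re) * u.re - k.im * u.im) ^ 2 = 0 := by
        nlinarith [sq_nonneg ((1 - k.re) * u.re - k.im * u.im),
          sq_nonneg ((1 + k.re) * u.im - k.im * u.re)]
      exact pow_eq_zero_iff (two_ne_zero) |>.1 this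
    have hY : (1 + k.re) * u.im - k.im * u.re = 0 := by
      have : ((1 + k.re) * u.im - k.im * u.re) ^ 2 = 0 := by
        nlinarith [sq_nonneg ((1 - k.re) * u.re - k.im * u.im),
          sq_nonneg ((1 + k.re) * u.im - k.im * u.re)]
      exact pow_eq_zero_iff (two_ne_zero) |>.1 this
    have hx : (1 - k.re ^ 2 - k.im ^ 2) * u.re = 0 := by
      linear_combination (1 + k.re) * hX + k.im * hY
    have hy : (1 - k.re ^ 2 - k.im ^ 2) * u.im = 0 := by
      linear_combination (1 - k.re) * hY + k.im * hX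
    have hne : (1 - k.re ^ 2 - k.im ^ 2) ≠ 0 := by
      intro h0
      linarith
    have hx' : u.re = 0 := by
      rcases mul_eq_zero.1 hx with h0 | h0
      · exact absurd h0 hne
      · exact h0
    have hy' : u.im = 0 := by
      rcases mul_eq_zero.1 hy with h0 | h0
      · exact absurd h0 hne
      · exact h0
    rw [hx', hy'] at h1
    norm_num at h1
  have hray : ∀ u : ℂ, ‖u‖ = 1 → ∀ s : ℝ, 0 < s → ((s • u) ∈ PB r ↔ s ≤ r u) := by
    intro u hu s hs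
    have h1 : ‖s • u‖ = s := by
      rw [norm_smul, hu, mul_one, Real.norm_of_nonneg hs.le]
    show ‖s • u‖ ≤ r ((‖s • u‖⁻¹ : ℝ) • (s • u)) ↔ s ≤ r u
    rw [h1, smul_smul, inv_mul_cancel₀ hs.ne', one_smul]
  have hroot : ∀ u : ℂ, ‖u‖ = 1 → (r u) ^ 2 * (((1 - k.re) * u.re - k.im * u.im) ^ 2 +
      ((1 + k.re) * u.im - k.im * u.re) ^ 2) - 2 * (r u) *
      (((1 - k.re) * u.re - k.im * u.im) * p + ((1 + k.re) * u.im - k.im * u.re) * q) = e := by
    intro u hu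
    refine F1_root _ _ _ _ (hpos u) (fun s hs => ?_)
    rw [← hray u hu s hs, hmem]
    have e1 : (s • u).re = s * u.re := by simp
    have e2 : (s • u).im = s * u.im := by simp
    rw [e1, e2, he]
    constructor
    · intro h1
      nlinarith [h1]
    · intro h1
      nlinarith [h1]
  refine ⟨((1 - k.re) ^ 2 + k.im ^ 2) / e, -4 * k.im / e, ((1 + k.re) ^ 2 + k.im ^ 2) / e,
    -2 * (p * (1 - k.re) - q * k.im) / e, -2 * (q * (1 + k.re) - p * k.im) / e, ?_⟩
  intro z hz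
  have hz' : 0 < ‖z‖ := norm_pos_iff.2 hz
  have hu : ‖((‖z‖⁻¹ : ℝ) • z)‖ = 1 := by
    rw [norm_smul, norm_inv, norm_norm, inv_mul_cancel₀ hz'.ne']
  have hzr : z.re = ‖z‖ * ((‖z‖⁻¹ : ℝ) • z).re := by
    simp only [Complex.real_smul, Complex.re_ofReal_mul]
    field_simp
  have hzi : z.im = ‖z‖ * ((‖z‖⁻¹ : ℝ) • z).im := by
    simp only [Complex.real_smul, Complex.im_ofReal_mul]
    field_simp
  generalize ((‖z‖⁻¹ : ℝ) • z) = u at hu hzr hzi ⊢
  have hr1 := hroot u hu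
  have hr2 := hroot (-u) (by rw [norm_neg]; exact hu)
  have hA1 := hA u hu
  have hρ := hpos u
  have hρ' := hpos (-u)
  rw [Complex.neg_re, Complex.neg_im] at hr2
  rw [hzr, hzi]
  generalize ‖z‖ = nz at hz' ⊢
  generalize r u = ρ at hr1 hρ ⊢
  generalize r (-u) = ρ' at hr2 hρ' ⊢
  generalize u.re = x at hr1 hr2 hA1 ⊢
  generalize u.im = y at hr1 hr2 hA1 ⊢
  set A : ℝ := ((1 - k.re) * x - k.im * y) ^ 2 + ((1 + k.re) * y - k.im * x) ^ 2 with hAdef
  set B : ℝ := ((1 - k.re) * x - k.im * y) * p + ((1 + k.re) * y - k.im * x) * q with hBdef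
  have hr2' : ρ' ^ 2 * A + 2 * ρ' * B = e := by
    rw [← hr2, hAdef, hBdef]
    ring
  have hsum : (ρ + ρ') * (ρ * ρ' * A) = (ρ + ρ') * e := by
    linear_combination ρ' * hr1 + ρ * hr2'
  have hs0 : ρ + ρ' ≠ 0 := (add_pos hρ hρ').ne'
  have heq : ρ * ρ' * A = e := mul_left_cancel₀ hs0 hsum
  have hpos3 : 0 < ρ * ρ' * A := by positivity
  have he0 : e ≠ 0 := by rw [← heq]; exact hpos3.ne'
  have hdiff : ρ * A - 2 * B = ρ' * A := by
    have h7 : ρ * (ρ * A - 2 * B) = ρ * (ρ' * A) := by linear_combination hr1 - heq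
    exact mul_left_cancel₀ hρ.ne' h7
  constructor
  · have h8 : ((1 - k.re) ^ 2 + k.im ^ 2) / e * (nz * x) ^ 2 + -4 * k.im / e * (nz * x * (nz * y)) + ((1 + k.re) ^ 2 + k.im ^ 2) / e * (nz * y) ^ 2 = nz ^ 2 * A / e := by
      rw [hAdef]; ring
    rw [h8, ← heq]
    field_simp
  · have h8 : -2 * (p * (1 - k.re) - q * k.im) / e * (nz * x) + -2 * (q * (1 + k.re) - p * k.im) / e * (nz * y) = nz * (-2 * B) / e := by
      rw [hBdef]; ring
    rw [h8, ← heq]
    field_simp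
    linear_combination (-1 : ℝ) * hdiff

end NS_F1

alias F1 := NS_F1.F1

end Pool.Agent.Helper7.Sec
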