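import Pool.Agent.Helper7.Sec.Defs

set_option autoImplicit false
open MeasureTheory Set
open scoped ComplexConjugate
noncomputable section
namespace Pool.Agent.Helper7.Sec

namespace NS_G1

-- TARGET
theorem G1 (n : ℕ) (q : EuclideanSpace ℝ (Fin n) → ℝ) (l : EuclideanSpace ℝ (Fin n) → ℝ)
    (h : ∀ x y : EuclideanSpace ℝ (Fin n), ∃ a1 a2 a3 d1 d2 : ℝ, ∀ s t : ℝ,
      q (s • x + t • y) = a1 * s ^ 2 + a2 * (s * t) + a3 * t ^ 2 ∧ l (s • x + t • y) = d1 * s + d2 * t) :
    ∃ (B : EuclideanSpace ℝ (Fin n) →ₗ[ℝ] EuclideanSpace ℝ (Fin n) →ₗ[ℝ] ℝ) (L : EuclideanSpace ℝ (Fin n) →ₗ[ℝ] ℝ),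
      (∀ x y, B x y = B y x) ∧ (∀ x, B x x = q x) ∧ (∀ x, L x = l x) := by
  have hpar : ∀ u v : EuclideanSpace ℝ (Fin n), q (u + v) + q (u - v) = 2 * q u + 2 * q v := by
    intro u v
    obtain ⟨a1, a2, a3, d1, d2, hh⟩ := h u v
    have e1 := (hh 1 1).1
    have e2 := (hh 1 (-1)).1
    have e3 := (hh 1 0).1
    have e4 := (hh 0 1).1
    simp only [one_smul, zero_smul, neg_smul, add_zero, zero_add, ← sub_eq_add_neg] at e1 e2 e3 e4
    rw [e1, e2, e3, e4]; ring
  have hsm : ∀ (s : ℝ) (x y : EuclideanSpace ℝ (Fin n)),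
      (q (s • x + y) - q (s • x - y)) / 4 = s * ((q (x + y) - q (x - y)) / 4) := by
    intro s x y
    obtain ⟨a1, a2, a3, d1, d2, hh⟩ := h x y
    have e1 := (hh s 1).1
    have e2 := (hh s (-1)).1
    have e3 := (hh 1 1).1
    have e4 := (hh 1 (-1)).1
    simp only [one_smul, zero_smul, neg_smul, add_zero, zero_add, ← sub_eq_add_neg] at e1 e2 e3 e4
    rw [e1, e2, e3, e4]; ring
  have hsq : ∀ (s : ℝ) (x : EuclideanSpace ℝ (Fin n)), q (s • x) = s ^ 2 * q x := by
    intro s x
    obtain ⟨a1, a2, a3, d1, d2, hh⟩ := h x 0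
    have e1 := (hh s 0).1
    have e3 := (hh 1 0).1
    simp only [one_smul, zero_smul, smul_zero, add_zero] at e1 e3
    rw [e1, e3]; ring
  have hsymm : ∀ x y : EuclideanSpace ℝ (Fin n), (q (x + y) - q (x - y)) / 4 = (q (y + x) - q (y - x)) / 4 := by
    intro x y
    have h1 := hsq (-1) (x - y)
    rw [neg_one_smul, neg_sub] at h1
    rw [h1, add_comm x y]
    ring
  have hhalf : ∀ x z y : EuclideanSpace ℝ (Fin n),
      (q (x + z + y) - q (x + z - y)) / 4 + (q (x - z + y) - q (x - z - y)) / 4 = 2 * ((q (x + y) - q (x - y)) / 4) := by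
    intro x z y
    have h1 := hpar (x + y) z
    have h2 := hpar (x - y) z
    rw [show x + y + z = x + z + y by abel, show x + y - z = x - z + y by abel] at h1
    rw [show x - y + z = x + z - y by abel, show x - y - z = x - z - y by abel] at h2
    linarith
  have hadd : ∀ a b y : EuclideanSpace ℝ (Fin n),
      (q (a + b + y) - q (a + b - y)) / 4 = (q (a + y) - q (a - y)) / 4 + (q (b + y) - q (b - y)) / 4 := by
    intro a b y
    have h1 := hhalf ((1/2 : ℝ) • (a + b)) ((1/2 : ℝ) • (a - b)) y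
    rw [show (1/2 : ℝ) • (a + b) + (1/2 : ℝ) • (a - b) = a by
          rw [← smul_add, show a + b + (a - b) = (2:ℝ) • a by rw [two_smul]; abel, smul_smul]; norm_num,
        show (1/2 : ℝ) • (a + b) - (1/2 : ℝ) • (a - b) = b by
          rw [← smul_sub, show a + b - (a - b) = (2:ℝ) • b by rw [two_smul]; abel, smul_smul]; norm_num,
        hsm (1/2) (a + b) y] at h1
    linarith
  have hl : ∀ x y : EuclideanSpace ℝ (Fin n), l (x + y) = l x + l y := by
    intro x y
    obtain ⟨a1, a2, a3, d1, d2, hh⟩ := h x y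
    have e1 := (hh 1 1).2
    have e2 := (hh 1 0).2
    have e3 := (hh 0 1).2
    simp only [one_smul, zero_smul, add_zero, zero_add] at e1 e2 e3
    rw [e1, e2, e3]; ring
  have hl2 : ∀ (s : ℝ) (x : EuclideanSpace ℝ (Fin n)), l (s • x) = s * l x := by
    intro s x
    obtain ⟨a1, a2, a3, d1, d2, hh⟩ := h x 0
    have e1 := (hh s 0).2
    have e3 := (hh 1 0).2
    simp only [one_smul, zero_smul, smul_zero, add_zero] at e1 e3
    rw [e1, e3]; ring
  refine ⟨LinearMap.mk₂ ℝ (fun x y => (q (x + y) - q (x - y)) / 4) ?_ ?_ ?_ ?_,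
    { toFun := l, map_add' := hl, map_smul' := fun s x => by simpa using hl2 s x }, ?_, ?_, ?_⟩
  · intro a b y; exact hadd a b y
  · intro s x y; simpa using hsm s x y
  · intro x a b
    rw [hsymm x (a + b), hsymm x a, hsymm x b]
    exact hadd a b x
  · intro s x y
    rw [hsymm x (s • y), hsymm x y]
    simpa using hsm s y x
  · intro x y
    simp only [LinearMap.mk₂_apply]
    exact hsymm x y
  · intro x
    simp only [LinearMap.mk₂_apply]
    have h1 := hsq 2 x
    have h2 := hsq 0 x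
    rw [two_smul] at h1
    rw [zero_smul] at h2
    rw [h1, sub_self, h2]; ring
  · intro x; rfl

end NS_G1

alias G1 := NS_G1.G1

end Pool.Agent.Helper7.Sec
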