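import Pool.Agent.Helper7.Sec.Defs
import Pool.Agent.Helper7.Sec.G1

set_option autoImplicit false
open MeasureTheory Set
open scoped ComplexConjugate
noncomputable section
namespace Pool.Agent.Helper7.Sec

namespace NS_G2

theorem perp_l457 {n : ℕ} (v y : EuclideanSpace ℝ (Fin n)) (hv : ‖v‖ = 1)
    (hz : y - (inner ℝ v y : ℝ) • v ≠ 0) :
    ∃ w : EuclideanSpace ℝ (Fin n), ‖w‖ = 1 ∧ inner ℝ v w = (0:ℝ) ∧
      ∃ a b : ℝ, y = a • v + b • w := by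
  obtain ⟨z, hzd⟩ : ∃ z, z = y - (inner ℝ v y : ℝ) • v := ⟨_, rfl⟩
  rw [← hzd] at hz
  have hzn : ‖z‖ ≠ 0 := norm_ne_zero_iff.mpr hz
  refine ⟨(‖z‖⁻¹ : ℝ) • z, ?_, ?_, inner ℝ v y, ‖z‖, ?_⟩
  · rw [norm_smul, norm_inv, norm_norm, inv_mul_cancel₀ hzn]
  · rw [inner_smul_right, hzd, inner_sub_right, inner_smul_right, real_inner_self_eq_norm_sq, hv]
    ring
  · rw [smul_smul, mul_inv_cancel₀ hzn, one_smul, hzd]
    abel

theorem unit_l457 {n : ℕ} (hn : 2 ≤ n) (v : EuclideanSpace ℝ (Fin n)) (hv : ‖v‖ = 1) :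
    ∃ w : EuclideanSpace ℝ (Fin n), ‖w‖ = 1 ∧ inner ℝ v w = (0:ℝ) := by
  obtain ⟨e0, he0⟩ : ∃ e0 : EuclideanSpace ℝ (Fin n), e0 = EuclideanSpace.single ⟨0, by omega⟩ 1 :=
    ⟨_, rfl⟩
  obtain ⟨e1, he1⟩ : ∃ e1 : EuclideanSpace ℝ (Fin n), e1 = EuclideanSpace.single ⟨1, by omega⟩ 1 :=
    ⟨_, rfl⟩
  have h01 : inner ℝ e0 e1 = (0:ℝ) := by
    rw [he0, he1]
    exact (EuclideanSpace.orthonormal_single (𝕜 := ℝ) (ι := Fin n)).2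
      (by simp)
  have hn0 : ‖e0‖ = 1 := by rw [he0]; simp
  have hn1 : ‖e1‖ = 1 := by rw [he1]; simp
  by_cases h0 : e0 - (inner ℝ v e0 : ℝ) • v = 0
  · by_cases h1 : e1 - (inner ℝ v e1 : ℝ) • v = 0
    · exfalso
      have g0 : e0 = (inner ℝ v e0 : ℝ) • v := sub_eq_zero.mp h0
      have g1 : e1 = (inner ℝ v e1 : ℝ) • v := sub_eq_zero.mp h1
      have k0 : ‖(inner ℝ v e0 : ℝ)‖ = 1 := by
        have := congrArg norm g0
        rw [norm_smul, hv, mul_one, hn0] at this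
        exact this.symm
      have k1 : ‖(inner ℝ v e1 : ℝ)‖ = 1 := by
        have := congrArg norm g1
        rw [norm_smul, hv, mul_one, hn1] at this
        exact this.symm
      have k2 : (inner ℝ v e0 : ℝ) * (inner ℝ v e1 : ℝ) = 0 := by
        have h2 : inner ℝ e0 e1 = (inner ℝ v e0 : ℝ) * (inner ℝ v e1 : ℝ) := by
          conv_lhs => rw [g0, g1]
          rw [inner_smul_left, inner_smul_right, real_inner_self_eq_norm_sq, hv]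
          simp
        rw [← h2, h01]
      have k3 := congrArg norm k2
      rw [norm_mul, k0, k1] at k3
      simp at k3
    · obtain ⟨w, hw, hvw, _⟩ := perp_l457 v e1 hv h1
      exact ⟨w, hw, hvw⟩
  · obtain ⟨w, hw, hvw, _⟩ := perp_l457 v e0 hv h0
    exact ⟨w, hw, hvw⟩

theorem plane_l457 {n : ℕ} (hn : 2 ≤ n) (x y : EuclideanSpace ℝ (Fin n)) :
    ∃ v w : EuclideanSpace ℝ (Fin n), ‖v‖ = 1 ∧ ‖w‖ = 1 ∧ inner ℝ v w = (0:ℝ) ∧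
      ∃ x1 x2 y1 y2 : ℝ, x = x1 • v + x2 • w ∧ y = y1 • v + y2 • w := by
  obtain ⟨v, hv, c, hc⟩ : ∃ v : EuclideanSpace ℝ (Fin n), ‖v‖ = 1 ∧ ∃ c : ℝ, x = c • v := by
    by_cases hx : x = 0
    · refine ⟨EuclideanSpace.single ⟨0, by omega⟩ 1, by simp, 0, by simp [hx]⟩
    · have hxn : ‖x‖ ≠ 0 := norm_ne_zero_iff.mpr hx
      refine ⟨(‖x‖⁻¹ : ℝ) • x, ?_, ‖x‖, ?_⟩
      · rw [norm_smul, norm_inv, norm_norm, inv_mul_cancel₀ hxn]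
      · rw [smul_smul, mul_inv_cancel₀ hxn, one_smul]
  by_cases hz : y - (inner ℝ v y : ℝ) • v = 0
  · obtain ⟨w, hw, hvw⟩ := unit_l457 hn v hv
    refine ⟨v, w, hv, hw, hvw, c, 0, inner ℝ v y, 0, ?_, ?_⟩
    · rw [zero_smul, add_zero]
      exact hc
    · rw [zero_smul, add_zero]
      exact sub_eq_zero.mp hz
  · obtain ⟨w, hw, hvw, a, b, hab⟩ := perp_l457 v y hv hz
    refine ⟨v, w, hv, hw, hvw, c, 0, a, b, ?_, hab⟩
    rw [zero_smul, add_zero]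
    exact hc

-- TARGET
theorem G2 (n : ℕ) (ρ : EuclideanSpace ℝ (Fin n) → ℝ) (hρ : ∀ x, 0 < ρ x)
    (h : ∀ v w : EuclideanSpace ℝ (Fin n), ‖v‖ = 1 → ‖w‖ = 1 → inner ℝ v w = (0:ℝ) →
      ∃ a1 a2 a3 d1 d2 : ℝ, ∀ x y : ℝ, (x ≠ 0 ∨ y ≠ 0) →
        ‖x • v + y • w‖ ^ 2 / (ρ ((‖x • v + y • w‖⁻¹ : ℝ) • (x • v + y • w)) * ρ (-((‖x • v + y • w‖⁻¹ : ℝ) • (x • v + y • w))))
          = a1 * x ^ 2 + a2 * (x * y) + a3 * y ^ 2 ∧
        ‖x • v + y • w‖ * (1 / ρ ((‖x • v + y • w‖⁻¹ : ℝ) • (x • v + y • w)) - 1 / ρ (-((‖x • v + y • w‖⁻¹ : ℝ) • (x • v + y • w))))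
          = d1 * x + d2 * y) (hn : 2 ≤ n) :
    ∃ (B : EuclideanSpace ℝ (Fin n) →ₗ[ℝ] EuclideanSpace ℝ (Fin n) →ₗ[ℝ] ℝ) (L : EuclideanSpace ℝ (Fin n) →ₗ[ℝ] ℝ),
      (∀ x y, B x y = B y x) ∧ (∀ x, x ≠ 0 → 0 < B x x) ∧
      (∀ x, ‖x‖ ≤ ρ ((‖x‖⁻¹ : ℝ) • x) ↔ B x x + L x ≤ 1) := by
  obtain ⟨q, hq⟩ : ∃ q : EuclideanSpace ℝ (Fin n) → ℝ, ∀ x, q x =
      ‖x‖ ^ 2 / (ρ ((‖x‖⁻¹ : ℝ) • x) * ρ (-((‖x‖⁻¹ : ℝ) • x))) := ⟨_, fun _ => rfl⟩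
  obtain ⟨l, hl⟩ : ∃ l : EuclideanSpace ℝ (Fin n) → ℝ, ∀ x, l x =
      ‖x‖ * (1 / ρ ((‖x‖⁻¹ : ℝ) • x) - 1 / ρ (-((‖x‖⁻¹ : ℝ) • x))) := ⟨_, fun _ => rfl⟩
  have hq0 : q 0 = 0 := by rw [hq]; simp
  have hl0 : l 0 = 0 := by rw [hl]; simp
  obtain ⟨B, L, hBs, hBq, hLl⟩ := G1 n q l (by
    intro x y
    obtain ⟨v, w, hv, hw, hvw, x1, x2, y1, y2, hx, hy⟩ := plane_l457 hn x y
    obtain ⟨a1, a2, a3, d1, d2, hh⟩ := h v w hv hw hvw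
    refine ⟨a1 * x1 ^ 2 + a2 * (x1 * x2) + a3 * x2 ^ 2,
      2 * a1 * x1 * y1 + a2 * (x1 * y2 + y1 * x2) + 2 * a3 * x2 * y2,
      a1 * y1 ^ 2 + a2 * (y1 * y2) + a3 * y2 ^ 2,
      d1 * x1 + d2 * x2, d1 * y1 + d2 * y2, ?_⟩
    intro s t
    have hst : s • x + t • y = (s * x1 + t * y1) • v + (s * x2 + t * y2) • w := by
      rw [hx, hy]
      module
    have key : q (s • x + t • y) = a1 * (s * x1 + t * y1) ^ 2
          + a2 * ((s * x1 + t * y1) * (s * x2 + t * y2)) + a3 * (s * x2 + t * y2) ^ 2 ∧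
        l (s • x + t • y) = d1 * (s * x1 + t * y1) + d2 * (s * x2 + t * y2) := by
      by_cases h0 : s * x1 + t * y1 ≠ 0 ∨ s * x2 + t * y2 ≠ 0
      · have := hh _ _ h0
        rw [hst, hq, hl]
        exact this
      · push Not at h0
        rw [hst, h0.1, h0.2]
        simp [hq0, hl0]
    constructor
    · rw [key.1]
      ring
    · rw [key.2]
      ring)
  refine ⟨B, L, hBs, ?_, ?_⟩
  · intro x hx
    rw [hBq, hq]
    have h1 := hρ ((‖x‖⁻¹ : ℝ) • x)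
    have h2 := hρ (-((‖x‖⁻¹ : ℝ) • x))
    have h3 : 0 < ‖x‖ := norm_pos_iff.mpr hx
    positivity
  · intro x
    rw [hBq, hLl, hq, hl]
    have h1 := hρ ((‖x‖⁻¹ : ℝ) • x)
    have h2 := hρ (-((‖x‖⁻¹ : ℝ) • x))
    have h3 : 0 ≤ ‖x‖ := norm_nonneg x
    generalize ρ ((‖x‖⁻¹ : ℝ) • x) = r at h1 ⊢
    generalize ρ (-((‖x‖⁻¹ : ℝ) • x)) = r' at h2 ⊢
    generalize ‖x‖ = s at h3 ⊢
    have e : s ^ 2 / (r * r') + s * (1 / r - 1 / r') - 1 = (s / r - 1) * (s / r' + 1) := by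
      field_simp
      ring
    have hp : 0 < s / r' + 1 := by positivity
    constructor
    · intro hs
      have h4 : s / r - 1 ≤ 0 := by
        rw [sub_nonpos, div_le_one h1]
        exact hs
      have h5 := mul_nonpos_of_nonpos_of_nonneg h4 hp.le
      linarith
    · intro hs
      by_contra hc
      push Not at hc
      have h4 : 0 < s / r - 1 := by
        rw [sub_pos, one_lt_div h1]
        exact hc
      have h5 := mul_pos h4 hp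
      linarith

end NS_G2

alias G2 := NS_G2.G2

end Pool.Agent.Helper7.Sec
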