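import Pool.Agent.Helper7.Sec.Defs

set_option autoImplicit false
open MeasureTheory Set
open scoped ComplexConjugate
noncomputable section
namespace Pool.Agent.Helper7.Sec

namespace NS_H1

-- TARGET
theorem H1_S (n : ℕ) (B : EuclideanSpace ℝ (Fin n) →ₗ[ℝ] EuclideanSpace ℝ (Fin n) →ₗ[ℝ] ℝ)
    (hs : ∀ x y, B x y = B y x) (hp : ∀ x, x ≠ 0 → 0 < B x x) :
    ∃ S : EuclideanSpace ℝ (Fin n) ≃ₗ[ℝ] EuclideanSpace ℝ (Fin n),
      ∀ x y, B (S x) (S y) = inner ℝ x y := by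
  have hsym : LinearMap.IsSymm (B : LinearMap.BilinForm ℝ (EuclideanSpace ℝ (Fin n))) :=
    ⟨fun x y => by simpa using hs x y⟩
  obtain ⟨v0, hv0⟩ := LinearMap.BilinForm.exists_orthogonal_basis hsym
  have hn : Module.finrank ℝ (EuclideanSpace ℝ (Fin n)) = n := finrank_euclideanSpace_fin
  let v := v0.reindex (finCongr hn)
  have hv : ∀ i j, i ≠ j → B (v i) (v j) = 0 := by
    intro i j hij
    simp only [v, Module.Basis.reindex_apply]
    apply hv0
    intro h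
    exact hij ((finCongr hn).symm.injective h)
  have hvp : ∀ i, 0 < B (v i) (v i) := fun i => hp _ (v.ne_zero i)
  let w : Fin n → EuclideanSpace ℝ (Fin n) := fun i => (Real.sqrt (B (v i) (v i)))⁻¹ • v i
  have hw : ∀ i j, B (w i) (w j) = if i = j then 1 else 0 := by
    intro i j
    simp only [w, map_smul, LinearMap.smul_apply, smul_eq_mul]
    split_ifs with h
    · subst h
      have h1 := Real.mul_self_sqrt (hvp i).le
      have h2 : Real.sqrt (B (v i) (v i)) ≠ 0 := (Real.sqrt_pos.2 (hvp i)).ne'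
      field_simp
      nlinarith [h1]
    · rw [hv i j h]; ring
  let S0 : EuclideanSpace ℝ (Fin n) →ₗ[ℝ] EuclideanSpace ℝ (Fin n) :=
    { toFun := fun x => ∑ i, x i • w i
      map_add' := fun x y => by
        simp [add_smul, Finset.sum_add_distrib]
      map_smul' := fun c x => by
        simp [Finset.smul_sum, mul_smul] }
  have hS0 : ∀ x y, B (S0 x) (S0 y) = inner ℝ x y := by
    intro x y
    show B (∑ i, x i • w i) (∑ i, y i • w i) = inner ℝ x y
    simp only [map_sum, map_smul, LinearMap.sum_apply, LinearMap.smul_apply, smul_eq_mul, hw]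
    rw [PiLp.inner_apply]
    simp only [mul_ite, mul_one, mul_zero, Finset.sum_ite_eq, Finset.sum_ite_eq', Finset.mem_univ, if_true]
    refine Finset.sum_congr rfl fun i _ => ?_
    simp [mul_comm]
  have hinj : Function.Injective S0 := by
    rw [← LinearMap.ker_eq_bot, LinearMap.ker_eq_bot']
    intro x hx
    have := hS0 x x
    rw [hx] at this
    simp only [map_zero, LinearMap.zero_apply] at this
    exact inner_self_eq_zero.1 this.symm
  refine ⟨LinearEquiv.ofInjectiveEndo S0 hinj, ?_⟩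
  intro x y
  simpa using hS0 x y

theorem H1 (n : ℕ) (B : EuclideanSpace ℝ (Fin n) →ₗ[ℝ] EuclideanSpace ℝ (Fin n) →ₗ[ℝ] ℝ) (L : EuclideanSpace ℝ (Fin n) →ₗ[ℝ] ℝ)
    (hs : ∀ x y, B x y = B y x) (hp : ∀ x, x ≠ 0 → 0 < B x x) :
    ∃ A : EuclideanSpace ℝ (Fin n) ≃ᵃ[ℝ] EuclideanSpace ℝ (Fin n),
      {x | B x x + L x ≤ 1} = A '' Metric.closedBall 0 1 := by
  obtain ⟨S, hS⟩ := H1_S n B hs hp
  obtain ⟨d, hd⟩ : ∃ d : EuclideanSpace ℝ (Fin n), ∀ z, L (S z) = inner ℝ d z := by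
    refine ⟨(InnerProductSpace.toDual ℝ (EuclideanSpace ℝ (Fin n))).symm
      (LinearMap.toContinuousLinearMap (L ∘ₗ (S : EuclideanSpace ℝ (Fin n) →ₗ[ℝ] EuclideanSpace ℝ (Fin n)))), ?_⟩
    intro z
    rw [InnerProductSpace.toDual_symm_apply]
    rfl
  obtain ⟨t, ht⟩ : ∃ t : ℝ, t = Real.sqrt (1 + ‖(1/2 : ℝ) • d‖ ^ 2) := ⟨_, rfl⟩
  have ht0 : 0 < t := by rw [ht]; positivity
  have ht2 : t ^ 2 = 1 + ‖(1/2 : ℝ) • d‖ ^ 2 := by
    rw [ht, Real.sq_sqrt (by positivity)]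
  have key : ∀ z, B (S z) (S z) + L (S z) = ‖z + (1/2 : ℝ) • d‖ ^ 2 - ‖(1/2 : ℝ) • d‖ ^ 2 := by
    intro z
    rw [hS, hd, norm_add_sq_real, real_inner_self_eq_norm_sq, inner_smul_right, real_inner_comm]
    ring
  refine ⟨((LinearEquiv.smulOfNeZero ℝ (EuclideanSpace ℝ (Fin n)) t ht0.ne').trans S).toAffineEquiv.trans
    (AffineEquiv.constVAdd ℝ (EuclideanSpace ℝ (Fin n)) (-(S ((1/2 : ℝ) • d)))), ?_⟩
  have hA : ∀ y, (((LinearEquiv.smulOfNeZero ℝ (EuclideanSpace ℝ (Fin n)) t ht0.ne').trans S).toAffineEquiv.trans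
    (AffineEquiv.constVAdd ℝ (EuclideanSpace ℝ (Fin n)) (-(S ((1/2 : ℝ) • d))))) y =
      S (t • y - (1/2 : ℝ) • d) := by
    intro y
    rw [map_sub]
    simp [sub_eq_neg_add]
  ext x
  constructor
  · intro hx
    have hx' : B x x + L x ≤ 1 := hx
    obtain ⟨z, rfl⟩ := S.surjective x
    rw [key] at hx'
    refine ⟨t⁻¹ • (z + (1/2 : ℝ) • d), ?_, ?_⟩
    · rw [mem_closedBall_zero_iff, norm_smul, Real.norm_of_nonneg (inv_nonneg.2 ht0.le),
        inv_mul_le_iff₀ ht0, mul_one]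
      apply le_of_sq_le_sq _ ht0.le
      rw [ht2]; linarith
    · rw [hA, smul_smul, mul_inv_cancel₀ ht0.ne', one_smul, add_sub_cancel_right]
  · rintro ⟨y, hy, rfl⟩
    rw [mem_closedBall_zero_iff] at hy
    show B _ _ + L _ ≤ 1
    rw [hA, key, sub_add_cancel, norm_smul, Real.norm_of_nonneg ht0.le, mul_pow, ht2]
    have : ‖y‖ ^ 2 ≤ 1 := by
      have := norm_nonneg y
      nlinarith
    have h3 : 0 ≤ ‖(1/2 : ℝ) • d‖ ^ 2 := by positivity
    nlinarith

end NS_H1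

alias H1 := NS_H1.H1

end Pool.Agent.Helper7.Sec
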