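import Pool.Agent.Helper7.Sec.Defs

set_option autoImplicit false
open MeasureTheory Set
open scoped ComplexConjugate
noncomputable section
namespace Pool.Agent.Helper7.Sec

namespace NS_I1

-- TARGET
def I1L {n : ℕ} (v w : EuclideanSpace ℝ (Fin n)) : ℂ →ₗ[ℝ] EuclideanSpace ℝ (Fin n) where
  toFun z := z.re • v + z.im • w
  map_add' a b := by
    simp only [Complex.add_re, Complex.add_im, add_smul]
    abel
  map_smul' c a := by
    simp only [Complex.real_smul, Complex.mul_re, Complex.ofReal_re, Complex.ofReal_im, zero_mul,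
      sub_zero, Complex.mul_im, add_zero, RingHom.id_apply, smul_add, smul_smul]

theorem I1L_apply {n : ℕ} (v w : EuclideanSpace ℝ (Fin n)) (z : ℂ) :
    I1L v w z = z.re • v + z.im • w := rfl

theorem I1L_inj {n : ℕ} (v w : EuclideanSpace ℝ (Fin n)) (hv : ‖v‖ = 1) (hw : ‖w‖ = 1)
    (hvw : inner ℝ v w = (0:ℝ)) : Function.Injective (I1L v w) := by
  rw [← LinearMap.ker_eq_bot, LinearMap.ker_eq_bot']
  intro z hz
  rw [I1L_apply] at hz
  have hwv : inner ℝ w v = (0:ℝ) := by rw [real_inner_comm]; exact hvw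
  have h1 : inner ℝ v (z.re • v + z.im • w) = (0:ℝ) := by rw [hz, inner_zero_right]
  have h2 : inner ℝ w (z.re • v + z.im • w) = (0:ℝ) := by rw [hz, inner_zero_right]
  rw [inner_add_right, inner_smul_right, inner_smul_right, hvw, real_inner_self_eq_norm_sq, hv] at h1
  rw [inner_add_right, inner_smul_right, inner_smul_right, hwv, real_inner_self_eq_norm_sq, hw] at h2
  apply Complex.ext
  · simpa using h1
  · simpa using h2

theorem I1 (n : ℕ) (K : Set (EuclideanSpace ℝ (Fin n)))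
    (h : ∀ S T : Submodule ℝ (EuclideanSpace ℝ (Fin n)), Module.finrank ℝ S = 2 → Module.finrank ℝ T = 2 →
      ∃ f : S ≃ᵃ[ℝ] T, f '' {x : S | (x : EuclideanSpace ℝ (Fin n)) ∈ K} = {y : T | (y : EuclideanSpace ℝ (Fin n)) ∈ K})
    (v w v' w' : EuclideanSpace ℝ (Fin n)) (hv : ‖v‖ = 1) (hw : ‖w‖ = 1) (hvw : inner ℝ v w = (0:ℝ))
    (hv' : ‖v'‖ = 1) (hw' : ‖w'‖ = 1) (hvw' : inner ℝ v' w' = (0:ℝ)) :
    ∃ T : ℂ ≃ᵃ[ℝ] ℂ, T '' {z : ℂ | z.re • v + z.im • w ∈ K} = {z : ℂ | z.re • v' + z.im • w' ∈ K} := by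
  let e : ℂ ≃ₗ[ℝ] LinearMap.range (I1L v w) := LinearEquiv.ofInjective _ (I1L_inj v w hv hw hvw)
  let e' : ℂ ≃ₗ[ℝ] LinearMap.range (I1L v' w') :=
    LinearEquiv.ofInjective _ (I1L_inj v' w' hv' hw' hvw')
  have r1 : Module.finrank ℝ (LinearMap.range (I1L v w)) = 2 := by
    rw [← e.finrank_eq, Complex.finrank_real_complex]
  have r2 : Module.finrank ℝ (LinearMap.range (I1L v' w')) = 2 := by
    rw [← e'.finrank_eq, Complex.finrank_real_complex]
  obtain ⟨f, hf⟩ := h _ _ r1 r2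
  have he : ∀ z : ℂ, ((e z : LinearMap.range (I1L v w)) : EuclideanSpace ℝ (Fin n))
      = z.re • v + z.im • w := fun z => rfl
  have he' : ∀ z : ℂ, ((e' z : LinearMap.range (I1L v' w')) : EuclideanSpace ℝ (Fin n))
      = z.re • v' + z.im • w' := fun z => rfl
  refine ⟨e.toAffineEquiv.trans (f.trans e'.symm.toAffineEquiv), ?_⟩
  ext z
  constructor
  · rintro ⟨x, hx, rfl⟩
    have hx' : x.re • v + x.im • w ∈ K := hx
    have h1 : f (e x) ∈ {y : LinearMap.range (I1L v' w') | (y : EuclideanSpace ℝ (Fin n)) ∈ K} := by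
      rw [← hf]
      exact ⟨e x, by show ((e x : LinearMap.range (I1L v w)) : EuclideanSpace ℝ (Fin n)) ∈ K
                     rw [he]; exact hx', rfl⟩
    have h2 : ((e' (e'.symm (f (e x))) : LinearMap.range (I1L v' w')) : EuclideanSpace ℝ (Fin n)) ∈ K := by
      rw [e'.apply_symm_apply]; exact h1
    rw [he'] at h2
    exact h2
  · intro hz
    have hz' : z.re • v' + z.im • w' ∈ K := hz
    have h1 : e' z ∈ {y : LinearMap.range (I1L v' w') | (y : EuclideanSpace ℝ (Fin n)) ∈ K} := by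
      show ((e' z : LinearMap.range (I1L v' w')) : EuclideanSpace ℝ (Fin n)) ∈ K
      rw [he']; exact hz'
    rw [← hf] at h1
    obtain ⟨y, hy, hyz⟩ := h1
    refine ⟨e.symm y, ?_, ?_⟩
    · show (e.symm y).re • v + (e.symm y).im • w ∈ K
      rw [← he, e.apply_symm_apply]
      exact hy
    · show e'.symm (f (e (e.symm y))) = z
      rw [e.apply_symm_apply, hyz, e'.symm_apply_apply]

end NS_I1

alias I1 := NS_I1.I1

end Pool.Agent.Helper7.Sec
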