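import Pool.Agent.Helper7.Sec.Defs

set_option autoImplicit false
open MeasureTheory Set
open scoped ComplexConjugate
noncomputable section
namespace Pool.Agent.Helper7.Sec

namespace NS_J1

-- TARGET
theorem J1_inner (n : ℕ) (e1 e2 e3 : EuclideanSpace ℝ (Fin n)) (h1 : ‖e1‖ = 1) (h2 : ‖e2‖ = 1) (h3 : ‖e3‖ = 1)
    (h12 : inner ℝ e1 e2 = (0:ℝ)) (h13 : inner ℝ e1 e3 = (0:ℝ)) (h23 : inner ℝ e2 e3 = (0:ℝ))
    (x y z x' y' z' : ℝ) :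
    inner ℝ (x • e1 + y • e2 + z • e3) (x' • e1 + y' • e2 + z' • e3) = x * x' + y * y' + z * z' := by
  have h21 : inner ℝ e2 e1 = (0:ℝ) := by rw [real_inner_comm]; exact h12
  have h31 : inner ℝ e3 e1 = (0:ℝ) := by rw [real_inner_comm]; exact h13
  have h32 : inner ℝ e3 e2 = (0:ℝ) := by rw [real_inner_comm]; exact h23
  simp only [inner_add_left, inner_add_right, real_inner_smul_left, real_inner_smul_right,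
    h12, h13, h23, h21, h31, h32, real_inner_self_eq_norm_sq, h1, h2, h3]
  ring

theorem J1_norm (n : ℕ) (e1 e2 e3 : EuclideanSpace ℝ (Fin n)) (h1 : ‖e1‖ = 1) (h2 : ‖e2‖ = 1) (h3 : ‖e3‖ = 1)
    (h12 : inner ℝ e1 e2 = (0:ℝ)) (h13 : inner ℝ e1 e3 = (0:ℝ)) (h23 : inner ℝ e2 e3 = (0:ℝ))
    (x y z : ℝ) (h : x ^ 2 + y ^ 2 + z ^ 2 = 1) :
    ‖x • e1 + y • e2 + z • e3‖ = 1 := by
  have hi := J1_inner n e1 e2 e3 h1 h2 h3 h12 h13 h23 x y z x y z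
  rw [real_inner_self_eq_norm_sq] at hi
  have hsq : ‖x • e1 + y • e2 + z • e3‖ ^ 2 = 1 := by rw [hi, ← h]; ring
  have h0 := norm_nonneg (x • e1 + y • e2 + z • e3)
  nlinarith

theorem J1 (n : ℕ) (e1 e2 e3 : EuclideanSpace ℝ (Fin n)) (h1 : ‖e1‖ = 1) (h2 : ‖e2‖ = 1) (h3 : ‖e3‖ = 1)
    (h12 : inner ℝ e1 e2 = (0:ℝ)) (h13 : inner ℝ e1 e3 = (0:ℝ)) (h23 : inner ℝ e2 e3 = (0:ℝ)) (a b d : ℝ) (h : a ^ 2 + b ^ 2 + d ^ 2 = 1) :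
    ‖(a ^ 2 + b ^ 2 - d ^ 2) • e1 + (2 * a * d) • e2 + (2 * b * d) • e3‖ = 1 ∧
    ‖(-(2 * a * d)) • e1 + (a ^ 2 - b ^ 2 - d ^ 2) • e2 + (2 * a * b) • e3‖ = 1 ∧
    inner ℝ ((a ^ 2 + b ^ 2 - d ^ 2) • e1 + (2 * a * d) • e2 + (2 * b * d) • e3)
      ((-(2 * a * d)) • e1 + (a ^ 2 - b ^ 2 - d ^ 2) • e2 + (2 * a * b) • e3) = (0:ℝ) := by
  have hh : (a ^ 2 + b ^ 2 + d ^ 2) ^ 2 = 1 := by rw [h]; norm_num
  refine ⟨?_, ?_, ?_⟩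
  · apply J1_norm n e1 e2 e3 h1 h2 h3 h12 h13 h23
    rw [← hh]; ring
  · apply J1_norm n e1 e2 e3 h1 h2 h3 h12 h13 h23
    rw [← hh]; ring
  · rw [J1_inner n e1 e2 e3 h1 h2 h3 h12 h13 h23]
    ring

end NS_J1

alias J1 := NS_J1.J1

end Pool.Agent.Helper7.Sec
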