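import Pool.Agent.Helper7.Sec.Defs

set_option autoImplicit false
open MeasureTheory Set
open scoped ComplexConjugate
noncomputable section
namespace Pool.Agent.Helper7.Sec

namespace NS_Top

-- TARGET
theorem exists_lift (P : ℝ × ℝ → ℂ) (hP : Continuous P) (h0 : ∀ p, P p ≠ 0) :
    ∃ Θ : ℝ × ℝ → ℝ, Continuous Θ ∧ ∀ p, P p = (‖P p‖ : ℂ) * Complex.exp (Θ p * Complex.I) := by
  have hnorm : ∀ p, ‖P p / (‖P p‖ : ℂ)‖ = 1 := by
    intro p
    rw [norm_div, Complex.norm_real, norm_norm]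
    exact div_self (norm_ne_zero_iff.2 (h0 p))
  let U : C(ℝ × ℝ, Circle) :=
    ⟨fun p => ⟨P p / (‖P p‖ : ℂ), mem_sphere_zero_iff_norm.2 (hnorm p)⟩, by
      apply Continuous.subtype_mk
      apply Continuous.div hP
      · exact Complex.continuous_ofReal.comp hP.norm
      · intro p
        exact_mod_cast norm_ne_zero_iff.2 (h0 p)⟩
  obtain ⟨e0, he0⟩ : ∃ e0 : ℝ, Circle.exp e0 = U (0, 0) :=
    ⟨Complex.arg (U (0, 0)), Circle.exp_arg (U (0, 0))⟩
  obtain ⟨Θ, ⟨_, hΘ⟩, _⟩ :=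
    Circle.isCoveringMap_exp.existsUnique_continuousMap_lifts U (0, 0) e0 he0
  refine ⟨Θ, Θ.continuous, fun p => ?_⟩
  have h1 : Circle.exp (Θ p) = U p := congrFun hΘ p
  have h2 : Complex.exp ((Θ p : ℝ) * Complex.I) = P p / (‖P p‖ : ℂ) := by
    have h4 : ((Circle.exp (Θ p) : Circle) : ℂ) = ((U p : Circle) : ℂ) := congrArg _ h1
    rw [Circle.coe_exp] at h4
    exact h4
  rw [h2, mul_div_cancel₀]
  exact_mod_cast norm_ne_zero_iff.2 (h0 p)

theorem disc_const (f : ℝ → ℝ) (hf : Continuous f) (h : ∀ t, ∃ n : ℤ, f t = n * (2 * Real.pi)) :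
    ∀ x y, f x = f y := by
  choose k hk using h
  have hpi : (2 * Real.pi) ≠ 0 := by positivity
  have h1 : (fun t => (k t : ℝ)) = fun t => f t / (2 * Real.pi) := by
    funext t
    rw [hk t, mul_div_cancel_right₀ _ hpi]
  have h2 : Continuous (fun t => (k t : ℝ)) := by
    rw [h1]
    exact hf.div_const _
  have kc : Continuous k := Int.isClosedEmbedding_coe_real.isInducing.continuous_iff.2 h2
  intro x y
  have h3 : k x = k y := PreconnectedSpace.constant inferInstance kc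
  rw [hk x, hk y, h3]

theorem rel_lift (P : ℝ × ℝ → ℂ) (hP : ∀ p, P p ≠ 0) (Θ : ℝ × ℝ → ℝ)
    (hΘ : ∀ p, P p = (‖P p‖ : ℂ) * Complex.exp (Θ p * Complex.I)) (p q : ℝ × ℝ) (α : ℝ)
    (h : P p = Complex.exp (α * Complex.I) * P q) :
    ∃ n : ℤ, Θ p - Θ q - α = n * (2 * Real.pi) := by
  have hn : ‖P p‖ = ‖P q‖ := by
    rw [h, norm_mul, Complex.norm_exp_ofReal_mul_I, one_mul]
  have hne : (‖P q‖ : ℂ) ≠ 0 := by exact_mod_cast norm_ne_zero_iff.2 (hP q)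
  have h1 : (‖P q‖ : ℂ) * Complex.exp (Θ p * Complex.I) =
      (‖P q‖ : ℂ) * Complex.exp (α * Complex.I + Θ q * Complex.I) := by
    have h2 := hΘ p
    rw [hn] at h2
    rw [← h2, h, Complex.exp_add]
    conv_lhs => rw [hΘ q]
    ring
  have h3 := mul_left_cancel₀ hne h1
  obtain ⟨n, hn'⟩ := Complex.exp_eq_exp_iff_exists_int.1 h3
  refine ⟨n, ?_⟩
  have h4 : ((Θ p - Θ q - α : ℝ) : ℂ) * Complex.I = ((n * (2 * Real.pi) : ℝ) : ℂ) * Complex.I := by
    push_cast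
    linear_combination hn'
  have h5 := mul_right_cancel₀ Complex.I_ne_zero h4
  exact_mod_cast h5

theorem Top (P : ℝ × ℝ → ℂ) (hc : Continuous P) (m : ℕ) (hm : 1 ≤ m)
    (h0 : ∀ θ : ℝ, P (0, θ) = Complex.exp (-(2 * m * θ) * Complex.I) * P (0, 0))
    (h1 : ∀ θ : ℝ, P (1, θ) = P (1, 0))
    (hper : ∀ t : ℝ, P (t, 2 * Real.pi) = P (t, 0)) : ∃ p, P p = 0 := by
  by_contra hcon
  push Not at hcon
  obtain ⟨Θ, hΘc, hΘ⟩ := exists_lift P hc hcon
  have hD := disc_const (fun t => Θ (t, 2 * Real.pi) - Θ (t, 0)) (by fun_prop) (by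
    intro t
    obtain ⟨n, hn⟩ := rel_lift P hcon Θ hΘ (t, 2 * Real.pi) (t, 0) 0 (by
      rw [hper t]; simp)
    exact ⟨n, by rw [← hn]; ring⟩) 0 1
  have hE := disc_const (fun θ => Θ (1, θ) - Θ (1, 0)) (by fun_prop) (by
    intro θ
    obtain ⟨n, hn⟩ := rel_lift P hcon Θ hΘ (1, θ) (1, 0) 0 (by
      rw [h1 θ]; simp)
    exact ⟨n, by rw [← hn]; ring⟩) (2 * Real.pi) 0
  have hG := disc_const (fun θ => Θ (0, θ) - Θ (0, 0) + 2 * m * θ) (by fun_prop) (by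
    intro θ
    obtain ⟨n, hn⟩ := rel_lift P hcon Θ hΘ (0, θ) (0, 0) (-(2 * m * θ)) (by
      rw [h0 θ]; push_cast; rfl)
    exact ⟨n, by rw [← hn]; ring⟩) (2 * Real.pi) 0
  have hpi := Real.pi_pos
  have hmr : (1 : ℝ) ≤ m := by exact_mod_cast hm
  have h6 : 0 < 2 * (m : ℝ) * (2 * Real.pi) := by positivity
  linarith

end NS_Top

alias Top := NS_Top.Top

end Pool.Agent.Helper7.Sec
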