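import Pool.Agent.Helper7.Sec.Defs
import Pool.Agent.Helper7.Sec.A4
import Pool.Agent.Helper7.Sec.B1
import Pool.Agent.Helper7.Sec.C1
import Pool.Agent.Helper7.Sec.C2
import Pool.Agent.Helper7.Sec.Top
import Pool.Agent.Helper7.Sec.I1
import Pool.Agent.Helper7.Sec.J1

set_option autoImplicit false
open MeasureTheory Set
open scoped ComplexConjugate
noncomputable section
namespace Pool.Agent.Helper7.Sec

namespace NS_Z1

theorem Z1_frame (n : ℕ) (hn : 3 ≤ n) : ∃ V W : ℝ × ℝ → EuclideanSpace ℝ (Fin n),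
    Continuous V ∧ Continuous W ∧ (∀ p, ‖V p‖ = 1) ∧ (∀ p, ‖W p‖ = 1) ∧
    (∀ p, inner ℝ (V p) (W p) = (0:ℝ)) ∧
    (∀ θ : ℝ, V (0, θ) = Real.cos (2 * θ) • V (0, 0) + Real.sin (2 * θ) • W (0, 0)) ∧
    (∀ θ : ℝ, W (0, θ) = (-Real.sin (2 * θ)) • V (0, 0) + Real.cos (2 * θ) • W (0, 0)) ∧
    (∀ θ : ℝ, V (1, θ) = V (1, 0)) ∧ (∀ θ : ℝ, W (1, θ) = W (1, 0)) ∧
    (∀ t : ℝ, V (t, 2 * Real.pi) = V (t, 0)) ∧ (∀ t : ℝ, W (t, 2 * Real.pi) = W (t, 0)) := by
  obtain ⟨e1, e2, e3, h1, h2, h3, h12, h13, h23⟩ : ∃ e1 e2 e3 : EuclideanSpace ℝ (Fin n),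
      ‖e1‖ = 1 ∧ ‖e2‖ = 1 ∧ ‖e3‖ = 1 ∧ inner ℝ e1 e2 = (0:ℝ) ∧ inner ℝ e1 e3 = (0:ℝ) ∧
      inner ℝ e2 e3 = (0:ℝ) := by
    refine ⟨EuclideanSpace.single ⟨0, by omega⟩ 1, EuclideanSpace.single ⟨1, by omega⟩ 1,
      EuclideanSpace.single ⟨2, by omega⟩ 1, ?_, ?_, ?_, ?_, ?_, ?_⟩ <;>
    simp [EuclideanSpace.inner_single_left]
  let a : ℝ × ℝ → ℝ := fun p => Real.cos (Real.pi * p.1 / 2) * Real.cos p.2
  let b : ℝ × ℝ → ℝ := fun p => Real.sin (Real.pi * p.1 / 2)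
  let d : ℝ × ℝ → ℝ := fun p => Real.cos (Real.pi * p.1 / 2) * Real.sin p.2
  have ha : Continuous a := by fun_prop
  have hb : Continuous b := by fun_prop
  have hd : Continuous d := by fun_prop
  have habd : ∀ p, a p ^ 2 + b p ^ 2 + d p ^ 2 = 1 := by
    intro p
    have s1 := Real.sin_sq_add_cos_sq (Real.pi * p.1 / 2)
    have s2 := Real.sin_sq_add_cos_sq p.2
    simp only [a, b, d]
    linear_combination s1 + Real.cos (Real.pi * p.1 / 2) ^ 2 * s2
  refine ⟨fun p => (a p ^ 2 + b p ^ 2 - d p ^ 2) • e1 + (2 * a p * d p) • e2 + (2 * b p * d p) • e3,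
    fun p => (-(2 * a p * d p)) • e1 + (a p ^ 2 - b p ^ 2 - d p ^ 2) • e2 + (2 * a p * b p) • e3,
    by fun_prop, by fun_prop, ?_, ?_, ?_, ?_, ?_, ?_, ?_, ?_, ?_⟩
  · intro p
    exact (J1 n e1 e2 e3 h1 h2 h3 h12 h13 h23 (a p) (b p) (d p) (habd p)).1
  · intro p
    exact (J1 n e1 e2 e3 h1 h2 h3 h12 h13 h23 (a p) (b p) (d p) (habd p)).2.1
  · intro p
    exact (J1 n e1 e2 e3 h1 h2 h3 h12 h13 h23 (a p) (b p) (d p) (habd p)).2.2
  · intro θ
    have s2 := Real.sin_sq_add_cos_sq θ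
    simp only [a, b, d, mul_zero, zero_div, Real.cos_zero, Real.sin_zero, one_mul, mul_one,
      Real.cos_two_mul, Real.sin_two_mul]
    have e : Real.sin θ ^ 2 = 1 - Real.cos θ ^ 2 := by linarith
    rw [e]
    module
  · intro θ
    have s2 := Real.sin_sq_add_cos_sq θ
    simp only [a, b, d, mul_zero, zero_div, Real.cos_zero, Real.sin_zero, one_mul, mul_one,
      Real.cos_two_mul, Real.sin_two_mul]
    have e : Real.sin θ ^ 2 = 1 - Real.cos θ ^ 2 := by linarith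
    rw [e]
    module
  · intro θ
    simp [a, b, d]
  · intro θ
    simp [a, b, d]
  · intro t
    simp [a, b, d]
  · intro t
    simp [a, b, d]

-- TARGET
theorem Z1 (n : ℕ) (hn : 3 ≤ n) (ρ : EuclideanSpace ℝ (Fin n) → ℝ) (hρ : Continuous ρ) (hpos : ∀ x, 0 < ρ x)
    (hT : ∀ v w v' w' : EuclideanSpace ℝ (Fin n), ‖v‖ = 1 → ‖w‖ = 1 → inner ℝ v w = (0:ℝ) →
      ‖v'‖ = 1 → ‖w'‖ = 1 → inner ℝ v' w' = (0:ℝ) →
      ∃ T : ℂ ≃ᵃ[ℝ] ℂ, T '' PB (fun z => ρ (z.re • v + z.im • w)) = PB (fun z => ρ (z.re • v' + z.im • w')))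
    (v w : EuclideanSpace ℝ (Fin n)) (hv : ‖v‖ = 1) (hw : ‖w‖ = 1) (hvw : inner ℝ v w = (0:ℝ)) (m j : ℕ) (hm : 1 ≤ m) :
    M (PB (fun z => ρ (z.re • v + z.im • w))) m j = 0 := by
  obtain ⟨V, W, hVc, hWc, hVn, hWn, hVW, hV0, hW0, hV1, hW1, hVp, hWp⟩ := Z1_frame n hn
  let R : ℝ × ℝ → ℂ → ℝ := fun p z => ρ (z.re • V p + z.im • W p)
  have hRc : Continuous (fun q : (ℝ × ℝ) × ℂ => R q.1 q.2) := by
    simp only [R]
    have hre : Continuous (fun q : (ℝ × ℝ) × ℂ => q.2.re) := Complex.continuous_re.comp continuous_snd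
    have him : Continuous (fun q : (ℝ × ℝ) × ℂ => q.2.im) := Complex.continuous_im.comp continuous_snd
    exact hρ.comp ((hre.smul (hVc.comp continuous_fst)).add (him.smul (hWc.comp continuous_fst)))
  have hRp : ∀ x z, 0 < R x z := fun x z => hpos _
  have hR1 : ∀ p, Continuous (R p) := fun p => hRc.comp (by fun_prop : Continuous (fun z : ℂ => (p, z)))
  have hPc := C2 R hRc hRp m j
  have hrot : ∀ θ : ℝ, PB (R (0, θ)) =
      (fun z => Complex.exp (-(2 * θ) * Complex.I) * z) '' PB (R (0, 0)) := by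
    intro θ
    have hexp : Complex.exp (-(2 * θ) * Complex.I) * Complex.exp ((2 * θ) * Complex.I) = 1 := by
      rw [← Complex.exp_add]
      have : (-(2 * (θ:ℂ)) * Complex.I + (2 * θ) * Complex.I) = 0 := by ring
      rw [this, Complex.exp_zero]
    have hnorm : ‖Complex.exp ((2 * (θ:ℂ)) * Complex.I)‖ = 1 := by
      have := Complex.norm_exp_ofReal_mul_I (2 * θ)
      push_cast at this
      exact this
    have hval : ∀ z : ℂ, R (0, θ) z = R (0, 0) (Complex.exp ((2 * θ) * Complex.I) * z) := by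
      intro z
      have hre : (Complex.exp ((2 * (θ:ℂ)) * Complex.I) * z).re =
          Real.cos (2 * θ) * z.re - Real.sin (2 * θ) * z.im := by
        have : ((2 * (θ:ℂ)) * Complex.I) = ((2 * θ : ℝ) : ℂ) * Complex.I := by push_cast; ring
        rw [this, Complex.mul_re, Complex.exp_ofReal_mul_I_re, Complex.exp_ofReal_mul_I_im]
      have him : (Complex.exp ((2 * (θ:ℂ)) * Complex.I) * z).im =
          Real.cos (2 * θ) * z.im + Real.sin (2 * θ) * z.re := by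
        have : ((2 * (θ:ℂ)) * Complex.I) = ((2 * θ : ℝ) : ℂ) * Complex.I := by push_cast; ring
        rw [this, Complex.mul_im, Complex.exp_ofReal_mul_I_re, Complex.exp_ofReal_mul_I_im]
      simp only [R]
      rw [hre, him, hV0 θ, hW0 θ]
      congr 1
      module
    ext z
    simp only [PB, Set.mem_image, Set.mem_setOf_eq]
    constructor
    · intro hz
      refine ⟨Complex.exp ((2 * θ) * Complex.I) * z, ?_, ?_⟩
      · rw [norm_mul, hnorm, one_mul]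
        rw [hval] at hz
        have : (‖z‖⁻¹ : ℝ) • (Complex.exp ((2 * (θ:ℂ)) * Complex.I) * z) =
            Complex.exp ((2 * (θ:ℂ)) * Complex.I) * ((‖z‖⁻¹ : ℝ) • z) := by
          rw [mul_smul_comm]
        rw [this]
        exact hz
      · rw [← mul_assoc, hexp, one_mul]
    · rintro ⟨y, hy, rfl⟩
      have hnorm2 : ‖Complex.exp (-(2 * (θ:ℂ)) * Complex.I)‖ = 1 := by
        have := congrArg norm hexp
        rw [norm_mul, hnorm, mul_one, norm_one] at this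
        exact this
      rw [norm_mul, hnorm2, one_mul, hval]
      have : Complex.exp ((2 * (θ:ℂ)) * Complex.I) *
          ((‖y‖⁻¹ : ℝ) • (Complex.exp (-(2 * (θ:ℂ)) * Complex.I) * y)) = (‖y‖⁻¹ : ℝ) • y := by
        rw [mul_smul_comm, ← mul_assoc, mul_comm (Complex.exp ((2 * (θ:ℂ)) * Complex.I)), hexp, one_mul]
      rw [this]
      exact hy
  have hmeas : ∀ p, MeasurableSet (PB (R p)) := fun p =>
    (C1 (R p) (hR1 p) (hRp p)).1.isClosed.measurableSet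
  have h0 : ∀ θ : ℝ, M (PB (R (0, θ))) m j =
      Complex.exp (-(2 * m * θ) * Complex.I) * M (PB (R (0, 0))) m j := by
    intro θ
    have hnorm2 : ‖Complex.exp (-(2 * (θ:ℂ)) * Complex.I)‖ = 1 := by
      have := Complex.norm_exp_ofReal_mul_I (-(2 * θ))
      push_cast at this
      exact this
    rw [hrot θ, B1 _ hnorm2 _ (hmeas _) m j, ← Complex.exp_nat_mul]
    congr 2
    ring
  have h1 : ∀ θ : ℝ, M (PB (R (1, θ))) m j = M (PB (R (1, 0))) m j := by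
    intro θ
    have : R (1, θ) = R (1, 0) := by
      funext z
      simp only [R]
      rw [hV1 θ, hW1 θ]
    rw [this]
  have h2 : ∀ t : ℝ, M (PB (R (t, 2 * Real.pi))) m j = M (PB (R (t, 0))) m j := by
    intro t
    have : R (t, 2 * Real.pi) = R (t, 0) := by
      funext z
      simp only [R]
      rw [hVp t, hWp t]
    rw [this]
  obtain ⟨p, hp⟩ := Top (fun x => M (PB (R x)) m j) hPc m hm h0 h1 h2
  obtain ⟨T, hTe⟩ := hT (V p) (W p) v w (hVn p) (hWn p) (hVW p) hv hw hvw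
  rw [← hTe]
  have hc := C1 (R p) (hR1 p) (hRp p)
  exact A4 T (PB (R p)) hc.1 ⟨0, hc.2.1⟩ m j hp

end NS_Z1

alias Z1 := NS_Z1.Z1

end Pool.Agent.Helper7.Sec
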